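import Mathlib

namespace Pool.Agent.Lib.MP_fe1d70_nt

open Finset

section halfsum

variable {p : ℕ} [Fact p.Prime]

/-- sum over all nonzero residues as a sum over `Ico 1 p` -/
lemma sum_erase_zero {A : Type*} [AddCommMonoid A] (φ : ZMod p → A) :
    ∑ x ∈ univ.erase (0 : ZMod p), φ x = ∑ i ∈ Ico 1 p, φ (i : ZMod p) := by
  symm
  refine Finset.sum_bij (fun i _ => (i : ZMod p)) ?_ ?_ ?_ ?_
  · intro i hi
    simp only [mem_Ico] at hi
    simp only [mem_erase, mem_univ, and_true, ne_eq]
    rw [ZMod.natCast_eq_zero_iff]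
    intro h
    have := Nat.le_of_dvd (by omega) h
    omega
  · intro i hi j hj hij
    simp only [mem_Ico] at hi hj
    have h := (ZMod.natCast_eq_natCast_iff i j p).1 hij
    exact Nat.ModEq.eq_of_lt_of_lt h hi.2 hj.2
  · intro x hx
    simp only [mem_erase, mem_univ, and_true, ne_eq] at hx
    refine ⟨x.val, ?_, ?_⟩
    · simp only [mem_Ico]
      refine ⟨?_, ZMod.val_lt x⟩
      have : x.val ≠ 0 := by
        rw [Ne, ZMod.val_eq_zero]; exact hx
      omega
    · simp
  · intro i hi; rfl

lemma sum_Ico_one_succ {A : Type*} [AddCommMonoid A] (n : ℕ) (f : ℕ → A) :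
    ∑ i ∈ Ico 1 (n + 1), f i = ∑ k : Fin n, f ((k : ℕ) + 1) := by
  rw [Finset.sum_Ico_eq_sum_range, Nat.add_sub_cancel, Finset.sum_range]
  refine Finset.sum_congr rfl fun k _ => ?_
  rw [add_comm]

/-- half range sum -/
lemma half_sum {A : Type*} [AddCommMonoid A] (hp : p ≠ 2) (φ : ZMod p → A) :
    ∑ k : Fin ((p - 1) / 2), (φ (((k : ℕ) : ZMod p) + 1) + φ (-(((k : ℕ) : ZMod p) + 1)))
      = ∑ x ∈ univ.erase (0 : ZMod p), φ x := by
  have hp' : p.Prime := Fact.out
  have hodd : p % 2 = 1 := by
    rcases hp'.eq_two_or_odd with h | h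
    · exact absurd h hp
    · exact h
  set n := (p - 1) / 2 with hn
  have hpn : p = 2 * n + 1 := by omega
  rw [sum_erase_zero, Finset.sum_add_distrib]
  have hsplit : ∑ i ∈ Ico 1 p, φ (i : ZMod p)
      = ∑ i ∈ Ico 1 (n + 1), φ (i : ZMod p) + ∑ i ∈ Ico (n + 1) p, φ (i : ZMod p) := by
    rw [Finset.sum_Ico_consecutive _ (by omega) (by omega)]
  rw [hsplit]
  congr 1
  · rw [sum_Ico_one_succ n (fun i => φ (i : ZMod p))]
    refine Finset.sum_congr rfl fun k _ => ?_
    push_cast
    rfl
  · have h2 : ∑ i ∈ Ico (n + 1) p, φ (i : ZMod p) = ∑ i ∈ Ico 1 (n + 1), φ (-(i : ZMod p)) := by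
      refine Finset.sum_bij (fun i _ => p - i) ?_ ?_ ?_ ?_
      · intro i hi
        simp only [mem_Ico] at hi ⊢
        omega
      · intro i hi j hj hij
        simp only [mem_Ico] at hi hj
        omega
      · intro i hi
        simp only [mem_Ico] at hi
        refine ⟨p - i, ?_, ?_⟩
        · simp only [mem_Ico]; omega
        · omega
      · intro i hi
        simp only [mem_Ico] at hi
        rw [Nat.cast_sub (by omega)]
        simp
    rw [h2, sum_Ico_one_succ n (fun i => φ (-(i : ZMod p)))]
    refine Finset.sum_congr rfl fun k _ => ?_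
    push_cast
    rfl

end halfsum

section charsum

variable {p : ℕ} [Fact p.Prime]

lemma ringChar_ne_two (hp : p ≠ 2) : ringChar (ZMod p) ≠ 2 := by
  rw [ZMod.ringChar_zmod_n]; exact hp

/-- `∑ χ(x+a)χ(x+b) = p·[a=b] - 1` -/
lemma sum_quad_shift (hp : p ≠ 2) (a b : ZMod p) :
    ∑ x : ZMod p, quadraticChar (ZMod p) (x + a) * quadraticChar (ZMod p) (x + b)
      = (if a = b then (p : ℤ) else 0) - 1 := by
  have hp' : p.Prime := Fact.out
  -- reduce to b = 0
  have h1 : ∑ x : ZMod p, quadraticChar (ZMod p) (x + a) * quadraticChar (ZMod p) (x + b)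
      = ∑ x : ZMod p, quadraticChar (ZMod p) (x + (a - b)) * quadraticChar (ZMod p) x := by
    rw [← Equiv.sum_comp (Equiv.subRight b)]
    refine Finset.sum_congr rfl fun x _ => ?_
    simp only [Equiv.subRight_apply]
    rw [show x - b + a = x + (a - b) by ring, show x - b + b = x by ring]
  rw [h1]
  by_cases hab : a = b
  · subst hab
    simp only [sub_self, add_zero, if_true]
    rw [← Finset.add_sum_erase _ _ (mem_univ (0 : ZMod p))]
    have : ∀ x ∈ univ.erase (0 : ZMod p),
        quadraticChar (ZMod p) x * quadraticChar (ZMod p) x = 1 := by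
      intro x hx
      simp only [mem_erase, mem_univ, and_true, ne_eq] at hx
      rw [← sq, quadraticChar_sq_one hx]
    rw [Finset.sum_congr rfl this]
    simp [Finset.card_erase_of_mem, ZMod.card, Nat.cast_sub hp'.one_le]
  · simp only [hab, if_false, zero_sub]
    set c := a - b with hc
    have hc0 : c ≠ 0 := sub_ne_zero.2 hab
    rw [← Finset.add_sum_erase _ _ (mem_univ (0 : ZMod p))]
    simp only [MulChar.map_zero, mul_zero, zero_add]
    have h2 : ∀ x ∈ univ.erase (0 : ZMod p),
        quadraticChar (ZMod p) (x + c) * quadraticChar (ZMod p) x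
          = quadraticChar (ZMod p) (1 + c * x⁻¹) := by
      intro x hx
      simp only [mem_erase, mem_univ, and_true, ne_eq] at hx
      have : x + c = x * (1 + c * x⁻¹) := by field_simp
      rw [this, map_mul, mul_comm (quadraticChar (ZMod p) x), mul_assoc, ← sq,
        quadraticChar_sq_one hx, mul_one]
    rw [Finset.sum_congr rfl h2]
    have h3 : ∑ x ∈ univ.erase (0 : ZMod p), quadraticChar (ZMod p) (1 + c * x⁻¹)
        = ∑ y ∈ univ.erase (1 : ZMod p), quadraticChar (ZMod p) y := by
      refine Finset.sum_bij (fun x _ => 1 + c * x⁻¹) ?_ ?_ ?_ ?_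
      · intro x hx
        simp only [mem_erase, mem_univ, and_true, ne_eq] at hx ⊢
        intro h
        have : c * x⁻¹ = 0 := by linear_combination h
        rcases mul_eq_zero.1 this with h | h
        · exact hc0 h
        · exact hx (inv_eq_zero.1 h)
      · intro x hx y hy hxy
        simp only [mem_erase, mem_univ, and_true, ne_eq] at hx hy
        have : c * x⁻¹ = c * y⁻¹ := by linear_combination hxy
        have := mul_left_cancel₀ hc0 this
        exact inv_injective this
      · intro y hy
        simp only [mem_erase, mem_univ, and_true, ne_eq] at hy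
        have hy' : y - 1 ≠ 0 := sub_ne_zero.2 hy
        refine ⟨c * (y - 1)⁻¹, ?_, ?_⟩
        · simp only [mem_erase, mem_univ, and_true, ne_eq, mul_eq_zero, inv_eq_zero, not_or]
          exact ⟨hc0, hy'⟩
        · field_simp
          ring
      · intro x hx; rfl
    rw [h3]
    have h4 := quadraticChar_sum_zero (F := ZMod p) (ringChar_ne_two hp)
    rw [← Finset.add_sum_erase _ _ (mem_univ (1 : ZMod p))] at h4
    rw [map_one] at h4
    linarith

/-- the same sum without `x = 0` -/
lemma sum_quad_shift' (hp : p ≠ 2) (a b : ZMod p) :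
    ∑ x ∈ univ.erase (0 : ZMod p), quadraticChar (ZMod p) (x + a) * quadraticChar (ZMod p) (x + b)
      = (if a = b then (p : ℤ) else 0) - 1 - quadraticChar (ZMod p) a * quadraticChar (ZMod p) b := by
  have h := sum_quad_shift hp a b
  rw [← Finset.add_sum_erase _ _ (mem_univ (0 : ZMod p))] at h
  simp only [zero_add] at h
  linarith

/-- `∑_{x ≠ 0} χ(x+a) = -χ(a)` -/
lemma sum_shift' (hp : p ≠ 2) (a : ZMod p) :
    ∑ x ∈ univ.erase (0 : ZMod p), quadraticChar (ZMod p) (x + a) = - quadraticChar (ZMod p) a := by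
  have h := quadraticChar_sum_zero (F := ZMod p) (ringChar_ne_two hp)
  rw [← Equiv.sum_comp (Equiv.addRight a)] at h
  rw [← Finset.add_sum_erase _ _ (mem_univ (0 : ZMod p))] at h
  simp only [Equiv.coe_addRight, zero_add] at h
  linarith

end charsum

end Pool.Agent.Lib.MP_fe1d70_nt
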