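import Mathlib

namespace Pool.Agent.Lib.MP_fe1d70_nt

open Module NumberField Ideal

section ideals

variable (K : Type*) [Field K] [NumberField K]

/-- number of ideals of norm `n` -/
noncomputable def rr (n : ℕ) : ℕ := Nat.card {I : Ideal (𝓞 K) // absNorm I = n}

variable {K}

instance finite_norm (n : ℕ) : Finite {I : Ideal (𝓞 K) // absNorm I = n} :=
  (Ideal.finite_setOfPred_absNorm_eq n).to_subtype

omit [NumberField K] in
lemma coprime_sup_eq_top {m n : ℕ} (h : Nat.Coprime m n) :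
    span {(m : 𝓞 K)} ⊔ span {(n : 𝓞 K)} = ⊤ := by
  rw [Ideal.eq_top_iff_one, Ideal.mem_span_singleton_sup]
  have h1 := Nat.isCoprime_iff_coprime.2 h
  obtain ⟨a, b, hab⟩ := h1
  refine ⟨(a : 𝓞 K), (b : 𝓞 K) * (n : 𝓞 K), ?_, ?_⟩
  · exact Ideal.mul_mem_left _ _ (Ideal.mem_span_singleton_self _)
  · have := congrArg (Int.cast : ℤ → 𝓞 K) hab
    push_cast at this
    exact this

lemma natCast_mem_of_norm {I : Ideal (𝓞 K)} {m : ℕ} (h : absNorm I = m) : (m : 𝓞 K) ∈ I := by
  rw [← h]; exact absNorm_mem I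

lemma rr_mul {m n : ℕ} (hm : m ≠ 0) (hn : n ≠ 0) (h : Nat.Coprime m n) :
    rr K (m * n) = rr K m * rr K n := by
  have htop := coprime_sup_eq_top (K := K) h
  rw [rr, rr, rr, ← Nat.card_prod]
  symm
  refine Nat.card_congr (Equiv.ofBijective
    (fun x : {I : Ideal (𝓞 K) // absNorm I = m} × {I : Ideal (𝓞 K) // absNorm I = n} =>
      (⟨x.1.1 * x.2.1, by rw [map_mul, x.1.2, x.2.2]⟩ : {I : Ideal (𝓞 K) // absNorm I = m * n}))
    ⟨?_, ?_⟩)
  · -- injective
    have key1 : ∀ I J : Ideal (𝓞 K), absNorm I = m → absNorm J = n →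
        I * J ⊔ span {(m : 𝓞 K)} = I := by
      intro I J hI hJ
      apply le_antisymm
      · refine sup_le Ideal.mul_le_left ?_
        rw [Ideal.span_singleton_le_iff_mem]
        exact natCast_mem_of_norm hI
      · have h1 : span {(n : 𝓞 K)} ≤ J := by
          rw [Ideal.span_singleton_le_iff_mem]; exact natCast_mem_of_norm hJ
        calc I = I * (span {(m : 𝓞 K)} ⊔ span {(n : 𝓞 K)}) := by rw [htop, Ideal.mul_top]
          _ = I * span {(m : 𝓞 K)} ⊔ I * span {(n : 𝓞 K)} := Ideal.mul_sup _ _ _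
          _ ≤ span {(m : 𝓞 K)} ⊔ I * J := sup_le_sup Ideal.mul_le_right (Ideal.mul_mono_right h1)
          _ = I * J ⊔ span {(m : 𝓞 K)} := sup_comm _ _
    have key2 : ∀ I J : Ideal (𝓞 K), absNorm I = m → absNorm J = n →
        I * J ⊔ span {(n : 𝓞 K)} = J := by
      intro I J hI hJ
      apply le_antisymm
      · refine sup_le Ideal.mul_le_right ?_
        rw [Ideal.span_singleton_le_iff_mem]
        exact natCast_mem_of_norm hJ
      · have h1 : span {(m : 𝓞 K)} ≤ I := by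
          rw [Ideal.span_singleton_le_iff_mem]; exact natCast_mem_of_norm hI
        calc J = (span {(m : 𝓞 K)} ⊔ span {(n : 𝓞 K)}) * J := by rw [htop, Ideal.top_mul]
          _ = span {(m : 𝓞 K)} * J ⊔ span {(n : 𝓞 K)} * J := Ideal.sup_mul _ _ _
          _ ≤ I * J ⊔ span {(n : 𝓞 K)} := sup_le_sup (Ideal.mul_mono_left h1) Ideal.mul_le_left
    rintro ⟨⟨I, hI⟩, ⟨J, hJ⟩⟩ ⟨⟨I', hI'⟩, ⟨J', hJ'⟩⟩ hEq
    simp only [Subtype.mk.injEq] at hEq
    have e1 : I = I' := by rw [← key1 I J hI hJ, hEq, key1 I' J' hI' hJ']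
    have e2 : J = J' := by rw [← key2 I J hI hJ, hEq, key2 I' J' hI' hJ']
    subst e1; subst e2; rfl
  · -- surjective
    rintro ⟨L, hL⟩
    set I := L ⊔ span {(m : 𝓞 K)} with hIdef
    set J := L ⊔ span {(n : 𝓞 K)} with hJdef
    have hmn : ((m * n : ℕ) : 𝓞 K) ∈ L := natCast_mem_of_norm hL
    have hIJ : I * J = L := by
      apply le_antisymm
      · rw [hIdef, hJdef, Ideal.mul_sup, Ideal.sup_mul, Ideal.sup_mul]
        refine sup_le (sup_le Ideal.mul_le_right Ideal.mul_le_right)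
          (sup_le Ideal.mul_le_left ?_)
        rw [Ideal.span_singleton_mul_span_singleton, Ideal.span_singleton_le_iff_mem]
        exact_mod_cast hmn
      · calc L = L * (span {(m : 𝓞 K)} ⊔ span {(n : 𝓞 K)}) := by rw [htop, Ideal.mul_top]
          _ = L * span {(m : 𝓞 K)} ⊔ L * span {(n : 𝓞 K)} := Ideal.mul_sup _ _ _
          _ ≤ I * J := by
            refine sup_le ?_ ?_
            · rw [mul_comm L]
              exact Ideal.mul_mono le_sup_right le_sup_left
            · exact Ideal.mul_mono le_sup_left le_sup_right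
    have hprod : absNorm I * absNorm J = m * n := by rw [← map_mul, hIJ, hL]
    have hd1 : absNorm I ∣ m ^ Module.finrank ℤ (𝓞 K) := by
      rw [← absNorm_span_natCast]
      exact absNorm_dvd_absNorm_of_le le_sup_right
    have hd2 : absNorm J ∣ n ^ Module.finrank ℤ (𝓞 K) := by
      rw [← absNorm_span_natCast]
      exact absNorm_dvd_absNorm_of_le le_sup_right
    have hc1 : Nat.Coprime (absNorm I) n := (h.pow_left _).coprime_dvd_left hd1
    have hc2 : Nat.Coprime (absNorm J) m := (h.symm.pow_left _).coprime_dvd_left hd2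
    have hI : absNorm I ∣ m := hc1.dvd_of_dvd_mul_right (by rw [← hprod]; exact Dvd.intro _ rfl)
    have hJ : absNorm J ∣ n := hc2.dvd_of_dvd_mul_left (by rw [← hprod]; exact Dvd.intro_left _ rfl)
    obtain ⟨a, ha⟩ := hI
    obtain ⟨b, hb⟩ := hJ
    have hab : a * b = 1 := by
      have hpos : 0 < absNorm I * absNorm J := by rw [hprod]; positivity
      have : absNorm I * absNorm J * (a * b) = absNorm I * absNorm J * 1 := by
        rw [mul_one]
        calc absNorm I * absNorm J * (a * b) = (absNorm I * a) * (absNorm J * b) := by ring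
          _ = m * n := by rw [← ha, ← hb]
          _ = absNorm I * absNorm J := hprod.symm
      exact Nat.eq_of_mul_eq_mul_left hpos this
    have ha1 : a = 1 := Nat.eq_one_of_mul_eq_one_right hab
    have hb1 : b = 1 := Nat.eq_one_of_mul_eq_one_left hab
    rw [ha1, mul_one] at ha
    rw [hb1, mul_one] at hb
    refine ⟨⟨⟨I, ha.symm⟩, ⟨J, hb.symm⟩⟩, ?_⟩
    simp only [Subtype.mk.injEq]
    exact hIJ

lemma rr_one : rr K 1 = 1 := by
  rw [rr, Nat.card_eq_one_iff_unique]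
  refine ⟨⟨?_⟩, ⟨⟨⊤, by simp⟩⟩⟩
  rintro ⟨I, hI⟩ ⟨J, hJ⟩
  rw [absNorm_eq_one_iff] at hI hJ
  subst hI; subst hJ; rfl

/-- equality from inclusion and equal nonzero norm -/
lemma eq_of_le_of_norm {I J : Ideal (𝓞 K)} (h : I ≤ J) (h0 : absNorm J ≠ 0)
    (hn : absNorm I = absNorm J) : I = J := by
  obtain ⟨L, hL⟩ := Ideal.dvd_iff_le.2 h
  rw [hL, map_mul] at hn
  have : absNorm L = 1 := by
    have h1 : absNorm J * absNorm L = absNorm J * 1 := by rw [mul_one]; exact hn
    exact Nat.eq_of_mul_eq_mul_left (Nat.pos_of_ne_zero h0) h1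
  rw [absNorm_eq_one_iff] at this
  rw [hL, this, Ideal.mul_top]

lemma exists_prime_of_norm_pow {q k : ℕ} (hq : q.Prime) {I : Ideal (𝓞 K)}
    (hI : absNorm I = q ^ (k + 1)) : ∃ Q : Ideal (𝓞 K), Q.IsMaximal ∧ I ≤ Q ∧ (q : 𝓞 K) ∈ Q := by
  have hne : I ≠ ⊤ := by
    intro h
    rw [h, absNorm_top] at hI
    have := Nat.one_lt_pow (n := k + 1) (Nat.succ_ne_zero k) hq.one_lt
    omega
  obtain ⟨Q, hQ, hle⟩ := Ideal.exists_le_maximal I hne
  refine ⟨Q, hQ, hle, ?_⟩
  have h1 : ((q ^ (k + 1) : ℕ) : 𝓞 K) ∈ Q := hle (natCast_mem_of_norm hI)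
  push_cast at h1
  exact hQ.isPrime.mem_of_pow_mem _ h1

lemma isMaximal_of_norm_prime {q : ℕ} (hq : q.Prime) {P : Ideal (𝓞 K)} (hP : absNorm P = q) :
    P.IsMaximal := by
  have h1 : P.IsPrime := isPrime_of_irreducible_absNorm (by rw [hP]; exact hq)
  have h2 : P ≠ ⊥ := by
    intro h
    rw [h, absNorm_bot] at hP
    exact hq.ne_zero hP.symm
  exact h1.isMaximal h2

lemma ne_bot_of_norm {n : ℕ} (hn : n ≠ 0) {P : Ideal (𝓞 K)} (hP : absNorm P = n) : P ≠ ⊥ := by
  intro h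
  rw [h, absNorm_bot] at hP
  exact hn hP.symm

/-- if all primes above `q` contain... : classification when every maximal ideal above `q`
not containing `P` is `P'` -/
lemma eq_pow_of_forall {q : ℕ} (hq : q.Prime) {P' : Ideal (𝓞 K)} (hP' : absNorm P' = q)
    (S : Ideal (𝓞 K) → Prop)
    (hS : ∀ I J : Ideal (𝓞 K), S (I * J) → S J)
    (hQ : ∀ I Q : Ideal (𝓞 K), S I → I ≤ Q → Q.IsMaximal → (q : 𝓞 K) ∈ Q → Q = P') :
    ∀ (k : ℕ) (I : Ideal (𝓞 K)), absNorm I = q ^ k → S I → I = P' ^ k := by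
  intro k
  induction k with
  | zero =>
    intro I hI _
    rw [pow_zero, absNorm_eq_one_iff] at hI
    rw [hI, pow_zero, Ideal.one_eq_top]
  | succ k ih =>
    intro I hI hSI
    obtain ⟨Q, hQm, hle, hqQ⟩ := exists_prime_of_norm_pow hq hI
    have hQP := hQ I Q hSI hle hQm hqQ
    rw [hQP] at hle
    obtain ⟨J, hJ⟩ := Ideal.dvd_iff_le.2 hle
    have hnJ : absNorm J = q ^ k := by
      rw [hJ, map_mul, hP', pow_succ, mul_comm (q ^ k)] at hI
      exact Nat.eq_of_mul_eq_mul_left hq.pos hI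
    have hSJ : S J := hS P' J (by rw [← hJ]; exact hSI)
    rw [hJ, ih J hnJ hSJ, pow_succ, mul_comm]

/-- split case -/
lemma rr_split {q : ℕ} (hq : q.Prime) {P P' : Ideal (𝓞 K)} (hP : absNorm P = q)
    (hP' : absNorm P' = q) (hne : P ≠ P')
    (hrank : Module.finrank ℤ (𝓞 K) = 2) (k : ℕ) : rr K (q ^ k) = k + 1 := by
  have hPm := isMaximal_of_norm_prime hq hP
  have hPm' := isMaximal_of_norm_prime hq hP'
  have hcop : P ⊔ P' = ⊤ := by
    rw [← Ideal.isCoprime_iff_sup_eq]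
    exact Ideal.isCoprime_of_isMaximal hne
  have hprod : span {(q : 𝓞 K)} = P * P' := by
    apply eq_of_le_of_norm
    · rw [Ideal.mul_eq_inf_of_isCoprime (Ideal.isCoprime_iff_sup_eq.2 hcop)]
      rw [Ideal.span_singleton_le_iff_mem]
      exact ⟨natCast_mem_of_norm hP, natCast_mem_of_norm hP'⟩
    · rw [map_mul, hP, hP']; exact mul_ne_zero hq.ne_zero hq.ne_zero
    · rw [absNorm_span_natCast, hrank, map_mul, hP, hP', sq]
  have habove : ∀ Q : Ideal (𝓞 K), Q.IsMaximal → (q : 𝓞 K) ∈ Q → Q = P ∨ Q = P' := by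
    intro Q hQ hqQ
    have h1 : P * P' ≤ Q := by
      rw [← hprod, Ideal.span_singleton_le_iff_mem]; exact hqQ
    rcases hQ.isPrime.mul_le.1 h1 with h | h
    · left; exact (hPm.eq_of_le hQ.ne_top h).symm
    · right; exact (hPm'.eq_of_le hQ.ne_top h).symm
  induction k with
  | zero => rw [pow_zero, rr_one]
  | succ k ih =>
    suffices hsuff : rr K (q ^ (k + 1)) = rr K (q ^ k) + 1 by rw [hsuff, ih]
    rw [rr, rr, ← Finite.card_option]
    symm
    let f : Option {J : Ideal (𝓞 K) // absNorm J = q ^ k} →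
        {I : Ideal (𝓞 K) // absNorm I = q ^ (k + 1)} := fun o =>
      match o with
      | some J => ⟨P * J.1, by rw [map_mul, hP, J.2, pow_succ, mul_comm]⟩
      | none => ⟨P' ^ (k + 1), by rw [map_pow, hP']⟩
    have hPndvd : ¬ P ∣ P' ^ (k + 1) := by
      intro h
      have h2 := Ideal.dvd_iff_le.1 h
      have h3 : P' ≤ P := hPm.isPrime.le_of_pow_le h2
      exact hne (hPm'.eq_of_le hPm.ne_top h3).symm
    have hPbot : P ≠ ⊥ := ne_bot_of_norm hq.ne_zero hP
    refine Nat.card_congr (Equiv.ofBijective f ⟨?_, ?_⟩)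
    · intro a b hab
      match a, b with
      | none, none => rfl
      | some J, none =>
        exfalso
        have h1 : P * J.1 = P' ^ (k + 1) := congrArg Subtype.val hab
        exact hPndvd ⟨J.1, h1.symm⟩
      | none, some J =>
        exfalso
        have h1 : P' ^ (k + 1) = P * J.1 := congrArg Subtype.val hab
        exact hPndvd ⟨J.1, h1⟩
      | some J, some J' =>
        have h1 : P * J.1 = P * J'.1 := congrArg Subtype.val hab
        have h2 : J.1 = J'.1 := mul_left_cancel₀ (by exact hPbot) h1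
        rw [Subtype.ext h2]
    · rintro ⟨I, hI⟩
      by_cases hdvd : P ∣ I
      · obtain ⟨J, hJ⟩ := hdvd
        have hnJ : absNorm J = q ^ k := by
          rw [hJ, map_mul, hP, pow_succ, mul_comm (q ^ k)] at hI
          exact Nat.eq_of_mul_eq_mul_left hq.pos hI
        exact ⟨some ⟨J, hnJ⟩, Subtype.ext hJ.symm⟩
      · refine ⟨none, Subtype.ext ?_⟩
        symm
        refine eq_pow_of_forall hq hP' (fun I => ¬ P ∣ I) ?_ ?_ (k + 1) I hI hdvd
        · intro I J h hJ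
          exact h (Dvd.dvd.mul_left hJ I)
        · intro I Q hSI hle hQ hqQ
          rcases habove Q hQ hqQ with h | h
          · exfalso
            rw [h] at hle
            exact hSI (Ideal.dvd_iff_le.2 hle)
          · exact h

/-- ramified case -/
lemma rr_ramified {q : ℕ} (hq : q.Prime) {P : Ideal (𝓞 K)} (hP : absNorm P = q)
    (huniq : ∀ P' : Ideal (𝓞 K), absNorm P' = q → P' = P)
    (hrank : Module.finrank ℤ (𝓞 K) = 2) (k : ℕ) : rr K (q ^ k) = 1 := by
  have hPm := isMaximal_of_norm_prime hq hP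
  have hprod : span {(q : 𝓞 K)} = P * P := by
    have h1 : span {(q : 𝓞 K)} ≤ P := by
      rw [Ideal.span_singleton_le_iff_mem]; exact natCast_mem_of_norm hP
    obtain ⟨J, hJ⟩ := Ideal.dvd_iff_le.2 h1
    have hnJ : absNorm J = q := by
      have := absNorm_span_natCast (S := 𝓞 K) q
      rw [hJ, hrank, map_mul, hP, sq] at this
      exact Nat.eq_of_mul_eq_mul_left hq.pos this
    rw [hJ, huniq J hnJ]
  have habove : ∀ Q : Ideal (𝓞 K), Q.IsMaximal → (q : 𝓞 K) ∈ Q → Q = P := by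
    intro Q hQ hqQ
    have h1 : P * P ≤ Q := by
      rw [← hprod, Ideal.span_singleton_le_iff_mem]; exact hqQ
    rcases hQ.isPrime.mul_le.1 h1 with h | h
    · exact (hPm.eq_of_le hQ.ne_top h).symm
    · exact (hPm.eq_of_le hQ.ne_top h).symm
  rw [rr, Nat.card_eq_one_iff_unique]
  refine ⟨⟨?_⟩, ⟨⟨P ^ k, by rw [map_pow, hP]⟩⟩⟩
  have hall := eq_pow_of_forall hq hP (fun _ => True) (fun _ _ _ => trivial)
    (fun I Q _ _ hQ hqQ => habove Q hQ hqQ)
  rintro ⟨I, hI⟩ ⟨J, hJ⟩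
  apply Subtype.ext
  exact (hall k I hI trivial).trans (hall k J hJ trivial).symm

/-- inert case -/
lemma rr_inert {q : ℕ} (hq : q.Prime) (hno : ∀ P : Ideal (𝓞 K), absNorm P ≠ q)
    (hrank : Module.finrank ℤ (𝓞 K) = 2) (k : ℕ) :
    rr K (q ^ (k + 2)) = rr K (q ^ k) := by
  have hnq : absNorm (span {(q : 𝓞 K)}) = q ^ 2 := by rw [absNorm_span_natCast, hrank]
  have habove : ∀ Q : Ideal (𝓞 K), Q.IsMaximal → (q : 𝓞 K) ∈ Q → span {(q : 𝓞 K)} = Q := by
    intro Q hQ hqQ
    have h1 : span {(q : 𝓞 K)} ≤ Q := by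
      rw [Ideal.span_singleton_le_iff_mem]; exact hqQ
    have h2 : absNorm Q ∣ q ^ 2 := by rw [← hnq]; exact absNorm_dvd_absNorm_of_le h1
    obtain ⟨i, hi, hi2⟩ := (Nat.dvd_prime_pow hq).1 h2
    have hi0 : i ≠ 0 := by
      intro h
      rw [h, pow_zero, absNorm_eq_one_iff] at hi2
      exact hQ.ne_top hi2
    have hi1 : i ≠ 1 := by
      intro h
      rw [h, pow_one] at hi2
      exact hno Q hi2
    have hi3 : i = 2 := by omega
    rw [hi3] at hi2
    apply eq_of_le_of_norm h1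
    · rw [hi2]; exact pow_ne_zero _ hq.ne_zero
    · rw [hnq, hi2]
  have hbot : span {(q : 𝓞 K)} ≠ ⊥ := ne_bot_of_norm (pow_ne_zero 2 hq.ne_zero) hnq
  symm
  refine Nat.card_congr (Equiv.ofBijective
    (fun J : {J : Ideal (𝓞 K) // absNorm J = q ^ k} =>
      (⟨span {(q : 𝓞 K)} * J.1, by rw [map_mul, hnq, J.2]; ring⟩ :
        {I : Ideal (𝓞 K) // absNorm I = q ^ (k + 2)})) ⟨?_, ?_⟩)
  · intro J J' h
    have h1 : span {(q : 𝓞 K)} * J.1 = span {(q : 𝓞 K)} * J'.1 := congrArg Subtype.val h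
    exact Subtype.ext (mul_left_cancel₀ (by exact hbot) h1)
  · rintro ⟨I, hI⟩
    obtain ⟨Q, hQ, hle, hqQ⟩ := exists_prime_of_norm_pow (k := k + 1) hq hI
    rw [← habove Q hQ hqQ] at hle
    obtain ⟨J, hJ⟩ := Ideal.dvd_iff_le.2 hle
    have hnJ : absNorm J = q ^ k := by
      rw [hJ, map_mul, hnq, show q ^ (k + 2) = q ^ 2 * q ^ k by ring] at hI
      exact Nat.eq_of_mul_eq_mul_left (pow_pos hq.pos 2) hI
    exact ⟨⟨J, hnJ⟩, Subtype.ext hJ.symm⟩

end ideals

end Pool.Agent.Lib.MP_fe1d70_nt
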