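import Mathlib

namespace Pool.Agent.Lib.MP_fe1d70_nt

open Module NumberField

section field

variable {p : ℕ} [Fact p.Prime] {K : Type*} [Field K] [NumberField K] {α : K}

lemma rat_sq_ne (x : ℚ) : (x : ℚ) ^ 2 ≠ -(p : ℚ) := by
  have hp' : p.Prime := Fact.out
  have : (0 : ℚ) < p := by exact_mod_cast hp'.pos
  have := sq_nonneg x
  intro h
  linarith

lemma alpha_pair (hα : α ^ 2 = -(p : K)) (s t : ℚ) (h : s • (1 : K) + t • α = 0) :
    s = 0 ∧ t = 0 := by
  have ht : t = 0 := by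
    by_contra ht
    have h1 : α = ((-(s / t) : ℚ) : K) := by
      have h2 : (t : K) * α = -(s : K) := by
        rw [Rat.smul_def, Rat.smul_def, mul_one] at h
        linear_combination h
      have ht' : (t : K) ≠ 0 := by exact_mod_cast ht
      push_cast
      field_simp
      linear_combination h2
    rw [h1] at hα
    have h3 : (((-(s / t)) ^ 2 : ℚ) : K) = ((-(p : ℚ) : ℚ) : K) := by
      push_cast
      push_cast at hα
      exact hα
    exact rat_sq_ne _ (by exact_mod_cast h3)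
  subst ht
  rw [zero_smul, add_zero, Rat.smul_def, mul_one] at h
  exact ⟨by exact_mod_cast h, rfl⟩

lemma alpha_linInd (hα : α ^ 2 = -(p : K)) : LinearIndependent ℚ ![(1 : K), α] := by
  rw [LinearIndependent.pair_iff]
  exact fun s t h => alpha_pair hα s t h

/-- the basis `1, α` of `K` -/
noncomputable def abasis (hK : finrank ℚ K = 2) (hα : α ^ 2 = -(p : K)) : Basis (Fin 2) ℚ K :=
  basisOfLinearIndependentOfCardEqFinrank (alpha_linInd hα) (by simp [hK])

lemma abasis_zero (hK : finrank ℚ K = 2) (hα : α ^ 2 = -(p : K)) : abasis hK hα 0 = 1 := by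
  simp [abasis]

lemma abasis_one (hK : finrank ℚ K = 2) (hα : α ^ 2 = -(p : K)) : abasis hK hα 1 = α := by
  simp [abasis]

lemma abasis_repr (hK : finrank ℚ K = 2) (hα : α ^ 2 = -(p : K)) (x y : ℚ) :
    (abasis hK hα).repr (x • (1 : K) + y • α) 0 = x ∧
    (abasis hK hα).repr (x • (1 : K) + y • α) 1 = y := by
  have h0 : (abasis hK hα).repr 1 = Finsupp.single 0 1 := by
    conv_lhs => rw [← abasis_zero hK hα]
    exact Basis.repr_self _ _
  have h1 : (abasis hK hα).repr α = Finsupp.single 1 1 := by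
    conv_lhs => arg 2; rw [← abasis_one hK hα]
    exact Basis.repr_self _ _
  rw [map_add, map_smul, map_smul, h0, h1]
  simp

lemma exists_coords (hK : finrank ℚ K = 2) (hα : α ^ 2 = -(p : K)) (z : K) :
    ∃ u v : ℚ, z = u • (1 : K) + v • α := by
  refine ⟨(abasis hK hα).repr z 0, (abasis hK hα).repr z 1, ?_⟩
  conv_lhs => rw [← (abasis hK hα).sum_repr z]
  rw [Fin.sum_univ_two, abasis_zero, abasis_one]

lemma leftMul_coords (hK : finrank ℚ K = 2) (hα : α ^ 2 = -(p : K)) (u v : ℚ) :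
    Algebra.leftMulMatrix (abasis hK hα) (u • (1 : K) + v • α)
      = !![u, -(p : ℚ) * v; v, u] := by
  have e0 : (u • (1 : K) + v • α) * 1 = u • (1 : K) + v • α := mul_one _
  have e1 : (u • (1 : K) + v • α) * α = (-(p : ℚ) * v) • (1 : K) + u • α := by
    simp only [Rat.smul_def]
    push_cast
    linear_combination (v : K) * hα
  ext i j
  rw [Algebra.leftMulMatrix_eq_repr_mul]
  fin_cases j
  · simp only [Fin.zero_eta, abasis_zero, e0]
    fin_cases i
    · simpa using (abasis_repr hK hα u v).1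
    · simpa using (abasis_repr hK hα u v).2
  · simp only [Fin.mk_one, abasis_one, e1]
    fin_cases i
    · simpa using (abasis_repr hK hα (-(p : ℚ) * v) u).1
    · simpa using (abasis_repr hK hα (-(p : ℚ) * v) u).2

lemma trace_coords (hK : finrank ℚ K = 2) (hα : α ^ 2 = -(p : K)) (u v : ℚ) :
    Algebra.trace ℚ K (u • (1 : K) + v • α) = 2 * u := by
  rw [Algebra.trace_eq_matrix_trace (abasis hK hα), leftMul_coords, Matrix.trace_fin_two]
  simp
  ring

lemma norm_coords (hK : finrank ℚ K = 2) (hα : α ^ 2 = -(p : K)) (u v : ℚ) :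
    Algebra.norm ℚ (u • (1 : K) + v • α) = u ^ 2 + p * v ^ 2 := by
  rw [Algebra.norm_eq_matrix_det (abasis hK hα), leftMul_coords, Matrix.det_fin_two]
  simp
  ring

/-- a rational `w` with `p w²` an integer is an integer -/
lemma rat_int_of_p_sq (w : ℚ) (N : ℤ) (h : (p : ℚ) * w ^ 2 = N) : ∃ b : ℤ, w = b := by
  have hp' : p.Prime := Fact.out
  have hd : (w.den : ℚ) ≠ 0 := by exact_mod_cast w.den_ne_zero
  have hw : w = w.num / w.den := (Rat.num_div_den w).symm
  have h1 : (p : ℤ) * w.num ^ 2 = N * (w.den : ℤ) ^ 2 := by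
    have : (p : ℚ) * w.num ^ 2 = N * (w.den : ℚ) ^ 2 := by
      rw [← h]
      have h0 : w * w.den = w.num := Rat.mul_den_eq_num w
      rw [← h0]; ring
    exact_mod_cast this
  have h2 : ((w.den : ℤ)) ^ 2 ∣ (p : ℤ) := by
    have hco : IsCoprime ((w.den : ℤ) ^ 2) (w.num ^ 2) := by
      apply IsCoprime.pow
      rw [Int.isCoprime_iff_gcd_eq_one, Int.gcd_comm]
      exact w.reduced
    exact hco.dvd_of_dvd_mul_right ⟨N, by rw [h1]; ring⟩
  have h3 : w.den ^ 2 ∣ p := by exact_mod_cast h2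
  have h4 : w.den = 1 := by
    have h5 : w.den ∣ p := (Dvd.intro_left (w.den) (by ring)).trans h3
    rcases (Nat.dvd_prime hp').1 h5 with h | h
    · exact h
    · exfalso
      rw [h] at h3
      have := Nat.le_of_dvd hp'.pos h3
      have := hp'.two_le
      nlinarith
  refine ⟨w.num, ?_⟩
  conv_lhs => rw [hw]
  rw [h4]; simp

/-- the integer `(p+1)/4` -/
def mm (p : ℕ) : ℤ := ((p : ℤ) + 1) / 4

omit [Fact p.Prime] in
lemma mm_eq (hp : p % 4 = 3) : 4 * mm p = (p : ℤ) + 1 := by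
  unfold mm; omega

omit [Fact p.Prime] in
lemma theta_isIntegral (hp : p % 4 = 3) (hα : α ^ 2 = -(p : K)) :
    IsIntegral ℤ ((1 + α) / 2) := by
  refine ⟨Polynomial.X ^ 2 - Polynomial.X + Polynomial.C (mm p), ?_, ?_⟩
  · monicity!
  · have h4 : (4 : K) * (mm p : K) = (p : K) + 1 := by exact_mod_cast congrArg (Int.cast : ℤ → K) (mm_eq hp)
    rw [Polynomial.eval₂_add, Polynomial.eval₂_sub, Polynomial.eval₂_pow,
      Polynomial.eval₂_X, Polynomial.eval₂_C, algebraMap_int_eq, eq_intCast]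
    have h2 : (2 : K) ≠ 0 := two_ne_zero
    field_simp
    linear_combination hα + h4

/-- the generator `θ = (1+α)/2` of the ring of integers -/
noncomputable def theta (hp : p % 4 = 3) (hα : α ^ 2 = -(p : K)) : 𝓞 K :=
  ⟨(1 + α) / 2, theta_isIntegral hp hα⟩

omit [Fact p.Prime] in
lemma theta_coe (hp : p % 4 = 3) (hα : α ^ 2 = -(p : K)) :
    algebraMap (𝓞 K) K (theta hp hα) = (1 + α) / 2 := rfl

lemma theta_sq (hp : p % 4 = 3) (hα : α ^ 2 = -(p : K)) :
    theta hp hα * theta hp hα = theta hp hα - (mm p : 𝓞 K) := by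
  apply FaithfulSMul.algebraMap_injective (𝓞 K) K
  have h4 : (4 : K) * (mm p : K) = (p : K) + 1 := by exact_mod_cast congrArg (Int.cast : ℤ → K) (mm_eq hp)
  rw [map_mul, map_sub, theta_coe, map_intCast]
  field_simp
  linear_combination hα + h4

/-- every integer of `K` is `a + b θ` -/
lemma exists_int_coords (hp : p % 4 = 3) (hK : finrank ℚ K = 2) (hα : α ^ 2 = -(p : K))
    (x : 𝓞 K) : ∃ a b : ℤ, x = (a : 𝓞 K) + (b : 𝓞 K) * theta hp hα := by
  obtain ⟨u, v, huv⟩ := exists_coords hK hα (x : K)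
  have hx : IsIntegral ℤ (x : K) := RingOfIntegers.isIntegral_coe x
  have ht : IsIntegral ℤ (Algebra.trace ℚ K (x : K)) := Algebra.isIntegral_trace hx
  have hn : IsIntegral ℤ (Algebra.norm ℚ (x : K)) := Algebra.isIntegral_norm ℚ hx
  rw [huv, trace_coords hK hα] at ht
  rw [huv, norm_coords hK hα] at hn
  obtain ⟨a0, ha0⟩ := IsIntegrallyClosed.isIntegral_iff.1 ht
  obtain ⟨c0, hc0⟩ := IsIntegrallyClosed.isIntegral_iff.1 hn
  simp only [algebraMap_int_eq, eq_intCast] at ha0 hc0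
  have hw : (p : ℚ) * (2 * v) ^ 2 = ((4 * c0 - a0 ^ 2 : ℤ) : ℚ) := by
    push_cast
    rw [ha0, hc0]; ring
  obtain ⟨b0, hb0⟩ := rat_int_of_p_sq (p := p) (2 * v) _ hw
  have hint : (p : ℤ) * b0 ^ 2 = 4 * c0 - a0 ^ 2 := by
    rw [hb0] at hw
    exact_mod_cast hw
  -- parity
  have hpar : ∃ a : ℤ, a0 = 2 * a + b0 := by
    have hp4 : ∃ l : ℤ, (p : ℤ) = 4 * l + 3 := ⟨(p : ℤ) / 4, by omega⟩
    obtain ⟨l, hl⟩ := hp4
    rcases Int.even_or_odd' a0 with ⟨r, hr | hr⟩ <;> rcases Int.even_or_odd' b0 with ⟨q, hq | hq⟩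
    · exact ⟨r - q, by rw [hr, hq]; ring⟩
    · exfalso
      rw [hr, hq, hl] at hint
      ring_nf at hint
      omega
    · exfalso
      rw [hr, hq, hl] at hint
      ring_nf at hint
      omega
    · exact ⟨r - q, by rw [hr, hq]; ring⟩
  obtain ⟨a, ha⟩ := hpar
  refine ⟨a, b0, ?_⟩
  apply FaithfulSMul.algebraMap_injective (𝓞 K) K
  have h6 : algebraMap (𝓞 K) K ((a : 𝓞 K) + (b0 : 𝓞 K) * theta hp hα)
      = (a : K) + (b0 : K) * ((1 + α) / 2) := by
    rw [map_add, map_mul, theta_coe, map_intCast, map_intCast]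
  have huv' : algebraMap (𝓞 K) K x = u • (1 : K) + v • α := huv
  rw [h6, huv', Rat.smul_def, Rat.smul_def, mul_one]
  have hu : (u : K) = (a0 : K) / 2 := by
    have : (2 : K) * (u : K) = (a0 : K) := by exact_mod_cast congrArg (Rat.cast : ℚ → K) ha0.symm
    rw [← this]; field_simp
  have hv : (v : K) = (b0 : K) / 2 := by
    have : (2 : K) * (v : K) = (b0 : K) := by exact_mod_cast congrArg (Rat.cast : ℚ → K) hb0
    rw [← this]; field_simp
  rw [hu, hv, ha]
  push_cast
  ring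

lemma int_pair (hp : p % 4 = 3) (hα : α ^ 2 = -(p : K)) (a b : ℤ)
    (h : (a : 𝓞 K) + (b : 𝓞 K) * theta hp hα = 0) : a = 0 ∧ b = 0 := by
  have h1 : algebraMap (𝓞 K) K ((a : 𝓞 K) + (b : 𝓞 K) * theta hp hα) = 0 := by rw [h, map_zero]
  have h6 : algebraMap (𝓞 K) K ((a : 𝓞 K) + (b : 𝓞 K) * theta hp hα)
      = (a : K) + (b : K) * ((1 + α) / 2) := by
    rw [map_add, map_mul, theta_coe, map_intCast, map_intCast]
  rw [h6] at h1
  have h2 : ((a : ℚ) + b / 2) • (1 : K) + ((b : ℚ) / 2) • α = 0 := by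
    rw [Rat.smul_def, Rat.smul_def]
    push_cast
    linear_combination h1
  obtain ⟨h3, h4⟩ := alpha_pair hα _ _ h2
  have hb : (b : ℚ) = 0 := by linarith
  have ha : (a : ℚ) = 0 := by rw [hb] at h3; linarith
  exact ⟨by exact_mod_cast ha, by exact_mod_cast hb⟩

lemma int_linInd (hp : p % 4 = 3) (hα : α ^ 2 = -(p : K)) :
    LinearIndependent ℤ ![(1 : 𝓞 K), theta hp hα] := by
  rw [LinearIndependent.pair_iff]
  intro s t h
  apply int_pair hp hα
  rw [zsmul_eq_mul, zsmul_eq_mul, mul_one] at h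
  exact h

lemma int_span (hp : p % 4 = 3) (hK : finrank ℚ K = 2) (hα : α ^ 2 = -(p : K)) :
    ⊤ ≤ Submodule.span ℤ (Set.range ![(1 : 𝓞 K), theta hp hα]) := by
  intro x _
  obtain ⟨a, b, hab⟩ := exists_int_coords hp hK hα x
  rw [hab]
  simp only [Matrix.range_cons, Matrix.range_empty, Set.union_empty, Set.singleton_union]
  rw [Submodule.mem_span_pair]
  exact ⟨a, b, by simp⟩

/-- the integral basis `1, θ` -/
noncomputable def ibasis (hp : p % 4 = 3) (hK : finrank ℚ K = 2) (hα : α ^ 2 = -(p : K)) :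
    Basis (Fin 2) ℤ (𝓞 K) :=
  Basis.mk (int_linInd hp hα) (int_span hp hK hα)

lemma ibasis_zero (hp : p % 4 = 3) (hK : finrank ℚ K = 2) (hα : α ^ 2 = -(p : K)) :
    ibasis hp hK hα 0 = 1 := by
  simp [ibasis]

lemma ibasis_one (hp : p % 4 = 3) (hK : finrank ℚ K = 2) (hα : α ^ 2 = -(p : K)) :
    ibasis hp hK hα 1 = theta hp hα := by
  simp [ibasis]

end field

end Pool.Agent.Lib.MP_fe1d70_nt
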