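import Mathlib
import Pool.Agent.Lib.MP_fe1d70_nt.QField

namespace Pool.Agent.Lib.MP_fe1d70_nt

open Module NumberField

section field

variable {p : ℕ} [Fact p.Prime] {K : Type*} [Field K] [NumberField K] {α : K}

lemma ibasis_repr (hp : p % 4 = 3) (hK : finrank ℚ K = 2) (hα : α ^ 2 = -(p : K)) (x y : ℤ) :
    (ibasis hp hK hα).repr ((x : 𝓞 K) + (y : 𝓞 K) * theta hp hα) 0 = x ∧
    (ibasis hp hK hα).repr ((x : 𝓞 K) + (y : 𝓞 K) * theta hp hα) 1 = y := by
  have h0 : (ibasis hp hK hα).repr 1 = Finsupp.single 0 1 := by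
    conv_lhs => rw [← ibasis_zero hp hK hα]
    exact Basis.repr_self _ _
  have h1 : (ibasis hp hK hα).repr (theta hp hα) = Finsupp.single 1 1 := by
    conv_lhs => arg 2; rw [← ibasis_one hp hK hα]
    exact Basis.repr_self _ _
  have h2 : (x : 𝓞 K) + (y : 𝓞 K) * theta hp hα = x • (1 : 𝓞 K) + y • theta hp hα := by simp
  rw [h2, map_add, map_smul, map_smul, h0, h1]
  simp

lemma int_mul (hp : p % 4 = 3) (hα : α ^ 2 = -(p : K)) (a b c d : ℤ) :
    ((a : 𝓞 K) + (b : 𝓞 K) * theta hp hα) * ((c : 𝓞 K) + (d : 𝓞 K) * theta hp hα)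
      = ((a * c - mm p * b * d : ℤ) : 𝓞 K) + ((a * d + b * c + b * d : ℤ) : 𝓞 K) * theta hp hα := by
  push_cast
  linear_combination ((b : 𝓞 K) * (d : 𝓞 K)) * theta_sq hp hα

lemma leftMul_int (hp : p % 4 = 3) (hK : finrank ℚ K = 2) (hα : α ^ 2 = -(p : K)) (a b : ℤ) :
    Algebra.leftMulMatrix (ibasis hp hK hα) ((a : 𝓞 K) + (b : 𝓞 K) * theta hp hα)
      = !![a, -(mm p) * b; b, a + b] := by
  have e0 : ((a : 𝓞 K) + (b : 𝓞 K) * theta hp hα) * 1
      = (a : 𝓞 K) + (b : 𝓞 K) * theta hp hα := mul_one _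
  have e1 : ((a : 𝓞 K) + (b : 𝓞 K) * theta hp hα) * theta hp hα
      = ((-(mm p) * b : ℤ) : 𝓞 K) + ((a + b : ℤ) : 𝓞 K) * theta hp hα := by
    push_cast
    linear_combination (b : 𝓞 K) * theta_sq hp hα
  ext i j
  rw [Algebra.leftMulMatrix_eq_repr_mul]
  fin_cases j
  · simp only [Fin.zero_eta, ibasis_zero, e0]
    fin_cases i
    · simpa using (ibasis_repr hp hK hα a b).1
    · simpa using (ibasis_repr hp hK hα a b).2
  · simp only [Fin.mk_one, ibasis_one, e1]
    fin_cases i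
    · simpa using (ibasis_repr hp hK hα (-(mm p) * b) (a + b)).1
    · simpa using (ibasis_repr hp hK hα (-(mm p) * b) (a + b)).2

lemma trace_int (hp : p % 4 = 3) (hK : finrank ℚ K = 2) (hα : α ^ 2 = -(p : K)) (a b : ℤ) :
    Algebra.trace ℤ (𝓞 K) ((a : 𝓞 K) + (b : 𝓞 K) * theta hp hα) = 2 * a + b := by
  rw [Algebra.trace_eq_matrix_trace (ibasis hp hK hα), leftMul_int, Matrix.trace_fin_two]
  simp
  ring

lemma norm_int (hp : p % 4 = 3) (hK : finrank ℚ K = 2) (hα : α ^ 2 = -(p : K)) (a b : ℤ) :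
    Algebra.norm ℤ ((a : 𝓞 K) + (b : 𝓞 K) * theta hp hα) = a ^ 2 + a * b + mm p * b ^ 2 := by
  rw [Algebra.norm_eq_matrix_det (ibasis hp hK hα), leftMul_int, Matrix.det_fin_two]
  simp
  ring

lemma discr_eq (hp : p % 4 = 3) (hK : finrank ℚ K = 2) (hα : α ^ 2 = -(p : K)) :
    discr K = -(p : ℤ) := by
  rw [← discr_eq_discr K (ibasis hp hK hα), Algebra.discr_def, Matrix.det_fin_two]
  simp only [Algebra.traceMatrix_apply, Algebra.traceForm_apply, ibasis_zero, ibasis_one, mul_one,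
    one_mul]
  have h1 : Algebra.trace ℤ (𝓞 K) 1 = 2 := by
    have := trace_int hp hK hα 1 0
    simpa using this
  have h2 : Algebra.trace ℤ (𝓞 K) (theta hp hα) = 1 := by
    have := trace_int hp hK hα 0 1
    simpa using this
  have h3 : Algebra.trace ℤ (𝓞 K) (theta hp hα * theta hp hα) = 1 - 2 * mm p := by
    have := trace_int hp hK hα (-(mm p)) 1
    rw [theta_sq]
    rw [show theta hp hα - (mm p : 𝓞 K) = ((-(mm p) : ℤ) : 𝓞 K) + ((1 : ℤ) : 𝓞 K) * theta hp hα by
      push_cast; ring, this]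
    ring
  rw [h1, h2, h3]
  have := mm_eq hp
  linarith

lemma unit_eq (hp : p % 4 = 3) (hp3 : 3 < p) (hK : finrank ℚ K = 2) (hα : α ^ 2 = -(p : K))
    (u : (𝓞 K)ˣ) : u = 1 ∨ u = -1 := by
  obtain ⟨a, b, hab⟩ := exists_int_coords hp hK hα (u : 𝓞 K)
  have hn : Algebra.norm ℤ (u : 𝓞 K) = 1 ∨ Algebra.norm ℤ (u : 𝓞 K) = -1 := by
    have : IsUnit (Algebra.norm ℤ (u : 𝓞 K)) := u.isUnit.map (Algebra.norm ℤ)
    exact Int.isUnit_iff.1 this
  rw [hab, norm_int hp hK hα] at hn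
  have h4 := mm_eq hp
  have hb : b = 0 := by
    have hp7 : (7 : ℤ) ≤ p := by omega
    by_contra hb
    have hb2 : 1 ≤ b ^ 2 := by
      have : 0 < b ^ 2 := by positivity
      omega
    rcases hn with hn | hn
    · nlinarith [sq_nonneg (2 * a + b)]
    · nlinarith [sq_nonneg (2 * a + b)]
  subst hb
  have ha : a * a = 1 := by
    rcases hn with hn | hn
    · nlinarith
    · exfalso; nlinarith [sq_nonneg a]
  rcases mul_self_eq_one_iff.1 ha with h | h
  · left
    apply Units.ext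
    rw [hab, h]; simp
  · right
    apply Units.ext
    rw [hab, h]; simp

lemma torsionOrder_eq (hp : p % 4 = 3) (hp3 : 3 < p) (hK : finrank ℚ K = 2)
    (hα : α ^ 2 = -(p : K)) : Units.torsionOrder K = 2 := by
  have h1 := Units.even_torsionOrder K
  have h2 := Units.torsionOrder_pos K
  have h3 : Units.torsionOrder K ≤ 2 := by
    rw [Units.torsionOrder]
    have hsub : ((Units.torsion K : Subgroup (𝓞 K)ˣ) : Set (𝓞 K)ˣ) ⊆ {1, -1} := by
      intro x _
      rcases unit_eq hp hp3 hK hα x with hx | hx <;> simp [hx]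
    have h4 := Set.ncard_le_ncard hsub (Set.toFinite _)
    have h5 : ({1, -1} : Set (𝓞 K)ˣ).ncard ≤ 2 := by
      refine (Set.ncard_insert_le _ _).trans ?_
      simp
    exact h4.trans h5
  obtain ⟨k, hk⟩ := h1
  omega

lemma nrRealPlaces_eq (hα : α ^ 2 = -(p : K)) : InfinitePlace.nrRealPlaces K = 0 := by
  classical
  rw [InfinitePlace.nrRealPlaces, Fintype.card_eq_zero_iff]
  refine ⟨fun w => ?_⟩
  obtain ⟨w, hw⟩ := w
  have f := InfinitePlace.embedding_of_isReal hw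
  have h : (f α) ^ 2 = -(p : ℝ) := by
    rw [← map_pow, hα, map_neg, map_natCast]
  have hp' : p.Prime := Fact.out
  have h1 : (0 : ℝ) < p := by exact_mod_cast hp'.pos
  nlinarith [sq_nonneg (f α)]

lemma nrComplexPlaces_eq (hK : finrank ℚ K = 2) (hα : α ^ 2 = -(p : K)) :
    InfinitePlace.nrComplexPlaces K = 1 := by
  have h := InfinitePlace.card_add_two_mul_card_eq_rank (K := K)
  rw [hK, nrRealPlaces_eq hα] at h
  omega

lemma regulator_eq (hK : finrank ℚ K = 2) (hα : α ^ 2 = -(p : K)) : Units.regulator K = 1 := by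
  classical
  have h := InfinitePlace.card_eq_nrRealPlaces_add_nrComplexPlaces (K := K)
  rw [nrRealPlaces_eq hα, nrComplexPlaces_eq hK hα] at h
  rw [Units.regulator_eq_det']
  have hempty : IsEmpty {w : InfinitePlace K // w ≠ Units.dirichletUnitTheorem.w₀} := by
    refine ⟨fun w => ?_⟩
    obtain ⟨w, hw⟩ := w
    have hs : Subsingleton (InfinitePlace K) := by
      rw [← Fintype.card_le_one_iff_subsingleton]
      omega
    exact hw (Subsingleton.elim _ _)
  rw [Matrix.det_isEmpty, abs_one]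

lemma residue_eq (hp : p % 4 = 3) (hp3 : 3 < p) (hK : finrank ℚ K = 2) (hα : α ^ 2 = -(p : K)) :
    (2 ^ InfinitePlace.nrRealPlaces K * (2 * Real.pi) ^ InfinitePlace.nrComplexPlaces K
      * Units.regulator K * classNumber K) /
      (Units.torsionOrder K * Real.sqrt |(discr K : ℝ)|)
      = Real.pi * classNumber K / Real.sqrt p := by
  rw [nrRealPlaces_eq hα, nrComplexPlaces_eq hK hα, regulator_eq hK hα,
    torsionOrder_eq hp hp3 hK hα, discr_eq hp hK hα]
  have hp' : p.Prime := Fact.out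
  have h1 : (0 : ℝ) < p := by exact_mod_cast hp'.pos
  push_cast
  rw [abs_neg, abs_of_pos h1]
  have : 0 < Real.sqrt p := Real.sqrt_pos.2 h1
  field_simp

end field

end Pool.Agent.Lib.MP_fe1d70_nt
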