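import Mathlib
import Pool.Agent.Lib.MP_fe1d70_nt.Basic

namespace Pool.Agent.Lib.MP_fe1d70_nt

open Finset Matrix

section mod4

/-- determinant of an integer matrix with `±1` diagonal and even off-diagonal entries, mod 4 -/
lemma det_mod_four {n : ℕ} (M : Matrix (Fin n) (Fin n) ℤ) (d : Fin n → ℤ)
    (hd : ∀ i, d i * d i = 1) (hdiag : ∀ i, M i i = d i) (hoff : ∀ i j, i ≠ j → 2 ∣ M i j) :
    ∃ m : ℤ, M.det = (∏ i, d i) * (1 + 4 * m) := by
  classical
  let N : Matrix (Fin n) (Fin n) ℤ := Matrix.of fun i j => if i = j then 0 else M i j / 2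
  let X : Matrix (Fin n) (Fin n) ℤ := Matrix.of fun i j => d i * N i j
  have hM : M = Matrix.diagonal d * (1 + (2 : ℤ) • X) := by
    ext i j
    rw [Matrix.diagonal_mul]
    simp only [Matrix.add_apply, Matrix.smul_apply, X, N, Matrix.of_apply, smul_eq_mul]
    by_cases hij : i = j
    · subst hij
      simp [hdiag]
    · simp only [hij, if_false, Matrix.one_apply_ne hij, zero_add]
      obtain ⟨c, hc⟩ := hoff i j hij
      rw [hc]
      rw [Int.mul_ediv_cancel_left _ (by norm_num)]
      linear_combination (-2 * c) * hd i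
  have htr : X.trace = 0 := by
    simp only [Matrix.trace, Matrix.diag, X, N, Matrix.of_apply]
    simp
  rw [hM, Matrix.det_mul, Matrix.det_diagonal, Matrix.det_one_add_smul, htr]
  exact ⟨Polynomial.eval 2 (1 + (Polynomial.X : Polynomial ℤ) • X.map Polynomial.C).det.divX.divX,
    by ring⟩

end mod4

section kappa

variable {p : ℕ} [Fact p.Prime]

/-- the residue `k+1` -/
def kap (p : ℕ) (k : Fin ((p - 1) / 2)) : ZMod p := ((k : ℕ) : ZMod p) + 1

lemma kap_eq_cast (k : Fin ((p - 1) / 2)) : kap p k = (((k : ℕ) + 1 : ℕ) : ZMod p) := by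
  simp [kap]

lemma kap_ne_zero (k : Fin ((p - 1) / 2)) : kap p k ≠ 0 := by
  rw [kap_eq_cast, Ne, ZMod.natCast_eq_zero_iff]
  intro h
  have := Nat.le_of_dvd (by omega) h
  have := k.2
  omega

lemma kap_add_ne_zero (_hp : p ≠ 2) (j k : Fin ((p - 1) / 2)) : kap p j + kap p k ≠ 0 := by
  have hp' : p.Prime := Fact.out
  rw [kap_eq_cast, kap_eq_cast, ← Nat.cast_add, Ne, ZMod.natCast_eq_zero_iff]
  intro h
  have := Nat.le_of_dvd (by omega) h
  have := k.2
  have := j.2
  omega

lemma kap_inj {j k : Fin ((p - 1) / 2)} : kap p j = kap p k ↔ j = k := by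
  constructor
  · intro h
    rw [kap_eq_cast, kap_eq_cast] at h
    have h := (ZMod.natCast_eq_natCast_iff _ _ p).1 h
    have h1 := j.2
    have h2 := k.2
    have := Nat.ModEq.eq_of_lt_of_lt h (by omega) (by omega)
    exact Fin.ext (by omega)
  · rintro rfl; rfl

lemma half_sum_kap {A : Type*} [AddCommMonoid A] (hp : p ≠ 2) (φ : ZMod p → A) :
    ∑ k : Fin ((p - 1) / 2), (φ (kap p k) + φ (-(kap p k)))
      = ∑ x ∈ univ.erase (0 : ZMod p), φ x := half_sum hp φ

/-- the character vector -/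
def cvec (p : ℕ) [Fact p.Prime] (k : Fin ((p - 1) / 2)) : ℤ := quadraticChar (ZMod p) (kap p k)

lemma cvec_sq (k : Fin ((p - 1) / 2)) : cvec p k * cvec p k = 1 := by
  rw [← sq]; exact quadraticChar_sq_one (kap_ne_zero k)

/-- plus matrix -/
def Mp (p : ℕ) [Fact p.Prime] : Matrix (Fin ((p - 1) / 2)) (Fin ((p - 1) / 2)) ℤ :=
  Matrix.of fun j k => quadraticChar (ZMod p) (kap p j + kap p k)
    + quadraticChar (ZMod p) (kap p j - kap p k)

/-- minus matrix -/
def Mm (p : ℕ) [Fact p.Prime] : Matrix (Fin ((p - 1) / 2)) (Fin ((p - 1) / 2)) ℤ :=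
  Matrix.of fun j k => quadraticChar (ZMod p) (kap p j + kap p k)
    - quadraticChar (ZMod p) (kap p j - kap p k)

lemma odd_val {x : ZMod p} (hx : x ≠ 0) : ∃ m : ℤ, quadraticChar (ZMod p) x = 2 * m + 1 := by
  rcases quadraticChar_dichotomy hx with h | h
  · exact ⟨0, by simp [h]⟩
  · exact ⟨-1, by simp [h]⟩

lemma Mp_off (hp : p ≠ 2) {j k : Fin ((p - 1) / 2)} (h : j ≠ k) : 2 ∣ Mp p j k := by
  obtain ⟨a, ha⟩ := odd_val (kap_add_ne_zero hp j k)
  obtain ⟨b, hb⟩ := odd_val (sub_ne_zero.2 (fun h' => h (kap_inj.1 h')) : kap p j - kap p k ≠ 0)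
  simp only [Mp, Matrix.of_apply, ha, hb]
  exact ⟨a + b + 1, by ring⟩

lemma Mm_off (hp : p ≠ 2) {j k : Fin ((p - 1) / 2)} (h : j ≠ k) : 2 ∣ Mm p j k := by
  obtain ⟨a, ha⟩ := odd_val (kap_add_ne_zero hp j k)
  obtain ⟨b, hb⟩ := odd_val (sub_ne_zero.2 (fun h' => h (kap_inj.1 h')) : kap p j - kap p k ≠ 0)
  simp only [Mm, Matrix.of_apply, ha, hb]
  exact ⟨a - b, by ring⟩

lemma Mp_diag (j : Fin ((p - 1) / 2)) : Mp p j j = quadraticChar (ZMod p) 2 * cvec p j := by
  simp only [Mp, Matrix.of_apply, sub_self, MulChar.map_zero, add_zero, cvec]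
  rw [← two_mul, map_mul]

lemma Mm_diag (j : Fin ((p - 1) / 2)) : Mm p j j = quadraticChar (ZMod p) 2 * cvec p j := by
  simp only [Mm, Matrix.of_apply, sub_self, MulChar.map_zero, sub_zero, cvec]
  rw [← two_mul, map_mul]

lemma two_ne_zero' (hp : p ≠ 2) : (2 : ZMod p) ≠ 0 := by
  have hp' : p.Prime := Fact.out
  intro h
  have h2 : ((2 : ℕ) : ZMod p) = 0 := by exact_mod_cast h
  rw [ZMod.natCast_eq_zero_iff] at h2
  have := Nat.le_of_dvd (by norm_num) h2
  have := hp'.two_le
  omega

lemma det_Mp_mod (hp : p ≠ 2) :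
    ∃ m : ℤ, (Mp p).det = (∏ i, (quadraticChar (ZMod p) 2 * cvec p i)) * (1 + 4 * m) := by
  refine det_mod_four (Mp p) _ ?_ Mp_diag (fun i j h => Mp_off hp h)
  intro i
  have h2 : quadraticChar (ZMod p) 2 * quadraticChar (ZMod p) 2 = 1 := by
    rw [← sq]; exact quadraticChar_sq_one (two_ne_zero' hp)
  linear_combination (cvec p i * cvec p i) * h2 + cvec_sq i

lemma det_Mm_mod (hp : p ≠ 2) :
    ∃ m : ℤ, (Mm p).det = (∏ i, (quadraticChar (ZMod p) 2 * cvec p i)) * (1 + 4 * m) := by
  refine det_mod_four (Mm p) _ ?_ Mm_diag (fun i j h => Mm_off hp h)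
  intro i
  have h2 : quadraticChar (ZMod p) 2 * quadraticChar (ZMod p) 2 = 1 := by
    rw [← sq]; exact quadraticChar_sq_one (two_ne_zero' hp)
  linear_combination (cvec p i * cvec p i) * h2 + cvec_sq i

/-- `M 1 = -c` -/
lemma Mp_mul_one (hp : p ≠ 2) (j : Fin ((p - 1) / 2)) : ∑ k, Mp p j k = - cvec p j := by
  have h := half_sum_kap hp (fun x => quadraticChar (ZMod p) (x + kap p j))
  rw [sum_shift' hp] at h
  rw [cvec, ← h]
  refine Finset.sum_congr rfl fun k _ => ?_
  simp only [Mp, Matrix.of_apply]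
  rw [add_comm (kap p k), sub_eq_add_neg, add_comm (- kap p k)]

end kappa

section one

variable {p : ℕ} [Fact p.Prime]

lemma char_neg_one_eq_one (hp : p % 4 = 1) : quadraticChar (ZMod p) (-1) = 1 := by
  have hp2 : p ≠ 2 := by rintro rfl; norm_num at hp
  rw [quadraticChar_neg_one (ringChar_ne_two hp2), ZMod.card, ZMod.χ₄_nat_one_mod_four hp]

lemma char_neg_of_one (hp : p % 4 = 1) (x : ZMod p) :
    quadraticChar (ZMod p) (-x) = quadraticChar (ZMod p) x := by
  rw [← neg_one_mul, map_mul, char_neg_one_eq_one hp, one_mul]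

lemma char_neg_one_eq_neg_one (hp : p % 4 = 3) : quadraticChar (ZMod p) (-1) = -1 := by
  have hp2 : p ≠ 2 := by rintro rfl; norm_num at hp
  rw [quadraticChar_neg_one (ringChar_ne_two hp2), ZMod.card, ZMod.χ₄_nat_three_mod_four hp]

lemma char_neg_of_three (hp : p % 4 = 3) (x : ZMod p) :
    quadraticChar (ZMod p) (-x) = - quadraticChar (ZMod p) x := by
  rw [← neg_one_mul, map_mul, char_neg_one_eq_neg_one hp, neg_one_mul]

/-- `M c = -1` for `p ≡ 1 mod 4` -/
lemma Mp_mul_c (hp : p % 4 = 1) (j : Fin ((p - 1) / 2)) : ∑ k, Mp p j k * cvec p k = - 1 := by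
  have hp2 : p ≠ 2 := by rintro rfl; norm_num at hp
  have h := half_sum_kap hp2
    (fun x => quadraticChar (ZMod p) (x + kap p j) * quadraticChar (ZMod p) (x + 0))
  rw [sum_quad_shift' hp2] at h
  simp only [kap_ne_zero, if_false, MulChar.map_zero, mul_zero, sub_zero, zero_sub, add_zero] at h
  rw [← h]
  refine Finset.sum_congr rfl fun k _ => ?_
  simp only [Mp, Matrix.of_apply, cvec]
  rw [char_neg_of_one hp (kap p k), add_comm (kap p k), sub_eq_add_neg, add_comm (- kap p k)]
  ring

/-- `Mᵀ c = -1` for `p ≡ 3 mod 4` -/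
lemma Mp_transpose_mul_c (hp : p % 4 = 3) (j : Fin ((p - 1) / 2)) :
    ∑ k, Mp p k j * cvec p k = - 1 := by
  have hp2 : p ≠ 2 := by rintro rfl; norm_num at hp
  have h := half_sum_kap hp2
    (fun x => quadraticChar (ZMod p) (x + kap p j) * quadraticChar (ZMod p) (x + 0))
  rw [sum_quad_shift' hp2] at h
  simp only [kap_ne_zero, if_false, MulChar.map_zero, mul_zero, sub_zero, zero_sub, add_zero] at h
  rw [← h]
  refine Finset.sum_congr rfl fun k _ => ?_
  simp only [Mp, Matrix.of_apply, cvec]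
  rw [char_neg_of_three hp (kap p k), show - kap p k + kap p j = -(kap p k - kap p j) by ring,
    char_neg_of_three hp]
  ring

/-- general product sums -/
lemma sum_prod_general (hp : p ≠ 2) (a b : ZMod p) :
    ∑ k : Fin ((p - 1) / 2),
      (quadraticChar (ZMod p) (kap p k + a) * quadraticChar (ZMod p) (kap p k + b)
        + quadraticChar (ZMod p) (-kap p k + a) * quadraticChar (ZMod p) (-kap p k + b))
      = (if a = b then (p : ℤ) else 0) - 1 - quadraticChar (ZMod p) a * quadraticChar (ZMod p) b := by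
  rw [← sum_quad_shift' hp a b]
  exact half_sum_kap hp
    (fun x => quadraticChar (ZMod p) (x + a) * quadraticChar (ZMod p) (x + b))

lemma Mm_sq (hp : p % 4 = 1) : Mm p * Mm p = (p : ℤ) • (1 : Matrix _ _ ℤ) := by
  have hp2 : p ≠ 2 := by rintro rfl; norm_num at hp
  ext j l
  have e1 := sum_prod_general hp2 (kap p j) (kap p l)
  have e2 := sum_prod_general hp2 (kap p j) (-kap p l)
  have hne : kap p j ≠ - kap p l := fun h => kap_add_ne_zero hp2 j l (by rw [h]; ring)
  rw [if_neg hne, char_neg_of_one hp] at e2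
  have key : (Mm p * Mm p) j l
      = (if kap p j = kap p l then (p : ℤ) else 0) - 1
          - quadraticChar (ZMod p) (kap p j) * quadraticChar (ZMod p) (kap p l)
        - (0 - 1 - quadraticChar (ZMod p) (kap p j) * quadraticChar (ZMod p) (kap p l)) := by
    rw [← e1, ← e2, ← Finset.sum_sub_distrib, Matrix.mul_apply]
    refine Finset.sum_congr rfl fun k _ => ?_
    simp only [Mm, Matrix.of_apply]
    rw [show kap p j + kap p k = kap p k + kap p j by ring,
      show kap p j - kap p k = - kap p k + kap p j by ring,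
      show -kap p k + -kap p l = -(kap p k + kap p l) by ring, char_neg_of_one hp (kap p k + kap p l),
      show -kap p k + kap p l = -(kap p k - kap p l) by ring, char_neg_of_one hp (kap p k - kap p l),
      show kap p k + -kap p l = kap p k - kap p l by ring]
    ring
  rw [key]
  simp only [Matrix.smul_apply, smul_eq_mul, kap_inj, Matrix.one_apply]
  split_ifs <;> ring

lemma Mp_sq (hp : p % 4 = 1) (j l : Fin ((p - 1) / 2)) :
    (Mp p * Mp p) j l = (if j = l then (p : ℤ) else 0) - 2 - 2 * (cvec p j * cvec p l) := by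
  have hp2 : p ≠ 2 := by rintro rfl; norm_num at hp
  have e1 := sum_prod_general hp2 (kap p j) (kap p l)
  have e2 := sum_prod_general hp2 (kap p j) (-kap p l)
  have hne : kap p j ≠ - kap p l := fun h => kap_add_ne_zero hp2 j l (by rw [h]; ring)
  rw [if_neg hne, char_neg_of_one hp] at e2
  have key : (Mp p * Mp p) j l
      = (if kap p j = kap p l then (p : ℤ) else 0) - 1
          - quadraticChar (ZMod p) (kap p j) * quadraticChar (ZMod p) (kap p l)
        + (0 - 1 - quadraticChar (ZMod p) (kap p j) * quadraticChar (ZMod p) (kap p l)) := by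
    rw [← e1, ← e2, ← Finset.sum_add_distrib, Matrix.mul_apply]
    refine Finset.sum_congr rfl fun k _ => ?_
    simp only [Mp, Matrix.of_apply]
    rw [show kap p j + kap p k = kap p k + kap p j by ring,
      show kap p j - kap p k = - kap p k + kap p j by ring,
      show -kap p k + -kap p l = -(kap p k + kap p l) by ring, char_neg_of_one hp (kap p k + kap p l),
      show -kap p k + kap p l = -(kap p k - kap p l) by ring, char_neg_of_one hp (kap p k - kap p l),
      show kap p k + -kap p l = kap p k - kap p l by ring]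
    ring
  rw [key]
  simp only [kap_inj, cvec]
  split_ifs <;> ring

end one

end Pool.Agent.Lib.MP_fe1d70_nt
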