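import Mathlib
import Pool.Agent.Lib.MP_fe1d70_nt.Mat

namespace Pool.Agent.Lib.MP_fe1d70_nt

open Finset Matrix

/-- sign resolution modulo 4 -/
lemma sign_resolve {D P e f : ℤ} (h2 : D ^ 2 = P ^ 2) (he : e = 1 ∨ e = -1) (hf : f = 1 ∨ f = -1)
    (hD : ∃ m, D = e * (1 + 4 * m)) (hP : ∃ m, P = f * (1 + 4 * m)) : D = e * f * P := by
  obtain ⟨m, hm⟩ := hD
  obtain ⟨l, hl⟩ := hP
  rcases sq_eq_sq_iff_eq_or_eq_neg.1 h2 with h | h <;> rcases he with rfl | rfl <;>
    rcases hf with rfl | rfl <;> omega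

lemma prod_pm {n : ℕ} (c : Fin n → ℤ) (hc : ∀ i, c i * c i = 1) :
    ∃ N : ℕ, ∏ i, c i = (-1) ^ N ∧ ∑ i, c i = (n : ℤ) - 2 * N := by
  have hc' : ∀ i, c i = 1 ∨ c i = -1 := fun i => mul_self_eq_one_iff.1 (hc i)
  refine ⟨(univ.filter fun i => c i = -1).card, ?_, ?_⟩
  · have : ∀ i, c i = if c i = -1 then (-1 : ℤ) else 1 := by
      intro i
      rcases hc' i with h | h <;> simp [h]
    conv_lhs => rw [Finset.prod_congr rfl (fun i _ => this i)]
    rw [Finset.prod_ite]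
    simp
  · have : ∀ i, c i = 1 - 2 * (if c i = -1 then (1 : ℤ) else 0) := by
      intro i
      rcases hc' i with h | h <;> simp [h]
    rw [Finset.sum_congr rfl (fun i _ => this i), Finset.sum_sub_distrib, ← Finset.mul_sum]
    simp

variable {p : ℕ} [Fact p.Prime]

lemma sum_cvec_one (hp : p % 4 = 1) : ∑ i, cvec p i = 0 := by
  have hp2 : p ≠ 2 := by rintro rfl; norm_num at hp
  have h := half_sum_kap hp2 (fun x => quadraticChar (ZMod p) (x + 0))
  rw [sum_shift' hp2] at h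
  simp only [add_zero, MulChar.map_zero, neg_zero] at h
  have h2 : ∑ k : Fin ((p - 1) / 2), (quadraticChar (ZMod p) (kap p k)
      + quadraticChar (ZMod p) (-kap p k)) = 2 * ∑ i, cvec p i := by
    rw [Finset.mul_sum]
    refine Finset.sum_congr rfl fun k _ => ?_
    rw [char_neg_of_one hp, cvec]; ring
  rw [h2] at h
  linarith

lemma prod_cvec_one (hp : p % 4 = 1) : ∏ i, cvec p i = (-1) ^ ((p - 1) / 4) := by
  obtain ⟨N, h1, h2⟩ := prod_pm (cvec p) cvec_sq
  rw [sum_cvec_one hp] at h2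
  rw [h1]
  congr 1
  omega

lemma prod_two_cvec_one (hp : p % 4 = 1) :
    ∏ i : Fin ((p - 1) / 2), (quadraticChar (ZMod p) 2 * cvec p i) = (-1) ^ ((p - 1) / 4) := by
  have hp2 : p ≠ 2 := by rintro rfl; norm_num at hp
  rw [Finset.prod_mul_distrib, prod_cvec_one hp]
  simp only [prod_const, card_univ, Fintype.card_fin]
  have h2 : quadraticChar (ZMod p) 2 * quadraticChar (ZMod p) 2 = 1 := by
    rw [← sq]; exact quadraticChar_sq_one (two_ne_zero' hp2)
  have : (p - 1) / 2 = 2 * ((p - 1) / 4) := by omega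
  rw [this, pow_mul, sq, h2, one_pow, one_mul]

omit [Fact p.Prime] in
lemma pow_mod_four_one (hp : p % 4 = 1) (k : ℕ) : ∃ m : ℤ, (p : ℤ) ^ k = 1 * (1 + 4 * m) := by
  have h : (p : ℤ) ^ k ≡ 1 [ZMOD 4] := by
    have h1 : (p : ℤ) ≡ 1 [ZMOD 4] := by
      unfold Int.ModEq; omega
    simpa using h1.pow k
  refine ⟨((p : ℤ) ^ k - 1) / 4, ?_⟩
  have := h
  unfold Int.ModEq at this
  omega

/-- value of `det (χ(j+k) - χ(j-k))` -/
lemma det_Mm (hp : p % 4 = 1) : (Mm p).det = (-(p : ℤ)) ^ ((p - 1) / 4) := by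
  have hp2 : p ≠ 2 := by rintro rfl; norm_num at hp
  have h1 : (Mm p).det ^ 2 = ((p : ℤ) ^ ((p - 1) / 4)) ^ 2 := by
    rw [sq, ← Matrix.det_mul, Mm_sq hp, Matrix.det_smul, Matrix.det_one, mul_one, Fintype.card_fin,
      ← pow_mul]
    congr 1
    omega
  have h2 := det_Mm_mod hp2
  rw [prod_two_cvec_one hp] at h2
  have h3 := sign_resolve h1 (neg_one_pow_eq_or ℤ _) (Or.inl rfl) h2 (pow_mod_four_one hp _)
  rw [h3, mul_one, ← mul_pow, neg_one_mul]

/-- swap determinant, scaled -/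
lemma det_scaled {K : Type*} [Field K] {n : ℕ} (a : K) (ha : a ≠ 0) (U : Matrix (Fin n) (Fin 2) K)
    (V : Matrix (Fin 2) (Fin n) K) :
    a ^ 2 * (a • (1 : Matrix (Fin n) (Fin n) K) - U * V).det
      = a ^ n * (a • (1 : Matrix (Fin 2) (Fin 2) K) - V * U).det := by
  have h1 : a • (1 : Matrix (Fin n) (Fin n) K) - U * V = a • (1 - (a⁻¹ • U) * V) := by
    rw [smul_sub, Matrix.smul_mul, smul_smul, mul_inv_cancel₀ ha, one_smul]
  have h2 : a • (1 : Matrix (Fin 2) (Fin 2) K) - V * U = a • (1 - V * (a⁻¹ • U)) := by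
    rw [smul_sub, Matrix.mul_smul, smul_smul, mul_inv_cancel₀ ha, one_smul]
  rw [h1, h2, Matrix.det_smul, Matrix.det_smul, Matrix.det_one_sub_mul_comm]
  simp only [Fintype.card_fin]
  ring

lemma det_Mp_sq_one (hp : p % 4 = 1) : ((p : ℤ) * (Mp p).det) ^ 2 = (p : ℤ) ^ ((p - 1) / 2) := by
  have hp2 : p ≠ 2 := by rintro rfl; norm_num at hp
  have hp' : p.Prime := Fact.out
  have hp0 : (p : ℚ) ≠ 0 := by exact_mod_cast hp'.ne_zero
  let U : Matrix (Fin ((p - 1) / 2)) (Fin 2) ℚ := Matrix.of fun j => ![1, (cvec p j : ℚ)]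
  let V : Matrix (Fin 2) (Fin ((p - 1) / 2)) ℚ :=
    Matrix.of ![fun _ => 2, fun k => 2 * (cvec p k : ℚ)]
  have hMM : ((Mp p) * (Mp p)).map (Int.cast : ℤ → ℚ) = (p : ℚ) • 1 - U * V := by
    ext j l
    rw [Matrix.map_apply, Mp_sq hp]
    simp only [Matrix.sub_apply, Matrix.smul_apply, Matrix.one_apply, Matrix.mul_apply,
      Fin.sum_univ_two, U, V, Matrix.of_apply, Matrix.cons_val_zero, Matrix.cons_val_one,
      smul_eq_mul]
    split_ifs <;> push_cast <;> ring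
  have hdet : (((Mp p).det : ℤ) : ℚ) ^ 2 = ((p : ℚ) • 1 - U * V).det := by
    rw [← hMM]
    have := (Int.castRingHom ℚ).map_det ((Mp p) * (Mp p))
    simp only [RingHom.mapMatrix_apply, Int.coe_castRingHom] at this
    rw [← this, Matrix.det_mul]
    push_cast
    ring
  have hVU : (p : ℚ) • (1 : Matrix (Fin 2) (Fin 2) ℚ) - V * U = 1 := by
    have hn : (p : ℚ) = 2 * (((p - 1) / 2 : ℕ) : ℚ) + 1 := by
      have : p = 2 * ((p - 1) / 2) + 1 := by omega
      exact_mod_cast this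
    have hs : ∑ k, (cvec p k : ℚ) = 0 := by exact_mod_cast sum_cvec_one hp
    have hs2 : ∑ k, ((cvec p k : ℚ) * (cvec p k : ℚ)) = (((p - 1) / 2 : ℕ) : ℚ) := by
      have : ∀ k ∈ (univ : Finset (Fin ((p - 1) / 2))), ((cvec p k : ℚ) * (cvec p k : ℚ)) = 1 := by
        intro k _
        exact_mod_cast cvec_sq k
      rw [Finset.sum_congr rfl this]; simp
    ext a b
    rw [Matrix.sub_apply, Matrix.smul_apply, Matrix.mul_apply]
    fin_cases a <;> fin_cases b
    · simp [U, V]; linarith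
    · simp [U, V, ← Finset.mul_sum, hs]
    · simp [U, V, ← Finset.mul_sum, hs]
    · simp only [U, V]
      simp [mul_assoc, ← Finset.mul_sum, hs2]; linarith
  have hsc := det_scaled (p : ℚ) hp0 U V
  rw [hVU, Matrix.det_one, mul_one, ← hdet] at hsc
  have : (((p : ℤ) * (Mp p).det : ℤ) : ℚ) ^ 2 = ((p : ℤ) : ℚ) ^ ((p - 1) / 2) := by
    rw [Int.cast_mul, mul_pow, Int.cast_natCast]
    exact hsc
  exact_mod_cast this

/-- value of `det (χ(j+k) + χ(j-k))`, `p ≡ 1 mod 4` -/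
lemma det_Mp_one (hp : p % 4 = 1) : (Mp p).det = - (-(p : ℤ)) ^ ((p - 5) / 4) := by
  have hp2 : p ≠ 2 := by rintro rfl; norm_num at hp
  have hp' : p.Prime := Fact.out
  have hp5 : 5 ≤ p := by
    have := hp'.two_le
    omega
  have h1 : ((p : ℤ) * (Mp p).det) ^ 2 = ((p : ℤ) ^ ((p - 1) / 4)) ^ 2 := by
    rw [det_Mp_sq_one hp, ← pow_mul]
    congr 1
    omega
  have h2 : ∃ m : ℤ, (p : ℤ) * (Mp p).det = (-1) ^ ((p - 1) / 4) * (1 + 4 * m) := by
    obtain ⟨m, hm⟩ := det_Mp_mod hp2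
    rw [prod_two_cvec_one hp] at hm
    have hp1 : ∃ l : ℤ, (p : ℤ) = 1 + 4 * l := ⟨((p : ℤ) - 1) / 4, by omega⟩
    obtain ⟨l, hl⟩ := hp1
    refine ⟨m + l + 4 * m * l, ?_⟩
    rw [hm]
    conv_lhs => rw [hl]
    ring
  have h3 := sign_resolve h1 (neg_one_pow_eq_or ℤ _) (Or.inl rfl) h2 (pow_mod_four_one hp _)
  rw [mul_one, ← mul_pow, neg_one_mul] at h3
  have hp0 : (p : ℤ) ≠ 0 := by exact_mod_cast hp'.ne_zero
  apply mul_left_cancel₀ hp0
  rw [h3]
  have : (p - 1) / 4 = (p - 5) / 4 + 1 := by omega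
  rw [this, pow_succ]
  ring

/-- main determinant identity in any commutative ring, `p ≡ 1 mod 4` -/
theorem det_D_one (hp : p % 4 = 1) {R : Type*} [CommRing R] (x y z w : R) :
    (Matrix.of fun j k : Fin ((p - 1) / 2) =>
      x + ((Mp p j k : ℤ) : R) + ((cvec p j : ℤ) : R) * y + ((cvec p k : ℤ) : R) * z
        + ((cvec p j : ℤ) : R) * ((cvec p k : ℤ) : R) * w).det
      = (-(p : R)) ^ ((p - 5) / 4) * ((((p - 1) / 2 : ℕ) : R) ^ 2 * w * x
          - ((((p - 1) / 2 : ℕ) : R) * y - 1) * ((((p - 1) / 2 : ℕ) : R) * z - 1)) := by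
  have hp2 : p ≠ 2 := by rintro rfl; norm_num at hp
  let U : Matrix (Fin ((p - 1) / 2)) (Fin 2) R := Matrix.of fun j => ![1, ((cvec p j : ℤ) : R)]
  let V : Matrix (Fin 2) (Fin ((p - 1) / 2)) R :=
    Matrix.of ![fun k => y + w * ((cvec p k : ℤ) : R), fun k => x + z * ((cvec p k : ℤ) : R)]
  let M : Matrix (Fin ((p - 1) / 2)) (Fin ((p - 1) / 2)) R := (Mp p).map (Int.cast : ℤ → R)
  have hs : ∑ k, ((cvec p k : ℤ) : R) = 0 := by exact_mod_cast congrArg (Int.cast : ℤ → R) (sum_cvec_one hp)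
  have hc2 : ∀ k, ((cvec p k : ℤ) : R) * ((cvec p k : ℤ) : R) = 1 := by
    intro k
    exact_mod_cast congrArg (Int.cast : ℤ → R) (cvec_sq k)
  have hMU : M * U = Matrix.of fun j => ![-((cvec p j : ℤ) : R), -1] := by
    ext j a
    rw [Matrix.mul_apply]
    fin_cases a
    · simp only [M, U, Matrix.map_apply, Matrix.of_apply]
      simp only [Fin.zero_eta, Matrix.cons_val_zero, mul_one]
      exact_mod_cast congrArg (Int.cast : ℤ → R) (Mp_mul_one hp2 j)
    · simp only [M, U, Matrix.map_apply, Matrix.of_apply]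
      simp only [Fin.mk_one, Matrix.cons_val_one, Matrix.cons_val_fin_one]
      exact_mod_cast congrArg (Int.cast : ℤ → R) (Mp_mul_c hp j)
  have hD : (Matrix.of fun j k : Fin ((p - 1) / 2) =>
      x + ((Mp p j k : ℤ) : R) + ((cvec p j : ℤ) : R) * y + ((cvec p k : ℤ) : R) * z
        + ((cvec p j : ℤ) : R) * ((cvec p k : ℤ) : R) * w) = M * (1 - U * V) := by
    rw [mul_sub, mul_one, ← Matrix.mul_assoc, hMU]
    ext j k
    simp only [Matrix.sub_apply, Matrix.of_apply, Matrix.mul_apply, Fin.sum_univ_two, V, M,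
      Matrix.map_apply, Matrix.cons_val_zero, Matrix.cons_val_one]
    ring
  rw [hD, Matrix.det_mul, Matrix.det_one_sub_mul_comm]
  have hdM : M.det = - (-(p : R)) ^ ((p - 5) / 4) := by
    have := (Int.castRingHom R).map_det (Mp p)
    simp only [RingHom.mapMatrix_apply, Int.coe_castRingHom] at this
    rw [show M = (Mp p).map (Int.cast : ℤ → R) from rfl, ← this, det_Mp_one hp]
    push_cast
    ring
  have hVU : (1 - V * U : Matrix (Fin 2) (Fin 2) R).det
      = (1 - (((p - 1) / 2 : ℕ) : R) * y) * (1 - (((p - 1) / 2 : ℕ) : R) * z)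
        - (((p - 1) / 2 : ℕ) : R) ^ 2 * w * x := by
    have h00 : (V * U) 0 0 = (((p - 1) / 2 : ℕ) : R) * y := by
      rw [Matrix.mul_apply]
      simp [U, V, Finset.sum_add_distrib, ← Finset.mul_sum, hs]
    have h01 : (V * U) 0 1 = (((p - 1) / 2 : ℕ) : R) * w := by
      rw [Matrix.mul_apply]
      simp [U, V, add_mul, mul_assoc, Finset.sum_add_distrib, ← Finset.mul_sum, hs, hc2]
    have h10 : (V * U) 1 0 = (((p - 1) / 2 : ℕ) : R) * x := by
      rw [Matrix.mul_apply]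
      simp [U, V, Finset.sum_add_distrib, ← Finset.mul_sum, hs]
    have h11 : (V * U) 1 1 = (((p - 1) / 2 : ℕ) : R) * z := by
      rw [Matrix.mul_apply]
      simp [U, V, add_mul, mul_assoc, Finset.sum_add_distrib, ← Finset.mul_sum, hs, hc2]
    rw [Matrix.det_fin_two]
    simp only [Matrix.sub_apply, h00, h01, h10, h11, Matrix.one_apply_eq, Matrix.one_apply_ne,
      ne_eq, zero_ne_one, one_ne_zero, not_false_eq_true]
    ring
  rw [hdM, hVU]
  ring

end Pool.Agent.Lib.MP_fe1d70_nt
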