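import Mathlib
import Pool.Agent.Lib.MP_fe1d70_nt.One

namespace Pool.Agent.Lib.MP_fe1d70_nt

open Finset Matrix

/-- Weinstein-Aronszajn, scaled -/
lemma det_scaled' {K : Type*} [Field K] {n m : ℕ} (a : K) (ha : a ≠ 0)
    (U : Matrix (Fin n) (Fin m) K) (V : Matrix (Fin m) (Fin n) K) :
    a ^ m * (a • (1 : Matrix (Fin n) (Fin n) K) - U * V).det
      = a ^ n * (a • (1 : Matrix (Fin m) (Fin m) K) - V * U).det := by
  have h1 : a • (1 : Matrix (Fin n) (Fin n) K) - U * V = a • (1 - (a⁻¹ • U) * V) := by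
    rw [smul_sub, Matrix.smul_mul, smul_smul, mul_inv_cancel₀ ha, one_smul]
  have h2 : a • (1 : Matrix (Fin m) (Fin m) K) - V * U = a • (1 - V * (a⁻¹ • U)) := by
    rw [smul_sub, Matrix.mul_smul, smul_smul, mul_inv_cancel₀ ha, one_smul]
  rw [h1, h2, Matrix.det_smul, Matrix.det_smul, Matrix.det_one_sub_mul_comm]
  simp only [Fintype.card_fin]
  ring

variable {p : ℕ} [Fact p.Prime]

/-- the half-range character sum -/
def sS (p : ℕ) [Fact p.Prime] : ℤ := ∑ i, cvec p i

/-- the double sum -/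
def tT (p : ℕ) [Fact p.Prime] : ℤ := ∑ j, ∑ k, Mp p j k * cvec p k

/-- `Mᵀ M = p - 2 J` -/
lemma MtM (hp : p % 4 = 3) (j l : Fin ((p - 1) / 2)) :
    ∑ k, Mp p k j * Mp p k l = (if j = l then (p : ℤ) else 0) - 2 := by
  have hp2 : p ≠ 2 := by rintro rfl; norm_num at hp
  have e1 := sum_prod_general hp2 (kap p j) (kap p l)
  have e2 := sum_prod_general hp2 (kap p j) (-kap p l)
  have hne : kap p j ≠ - kap p l := fun h => kap_add_ne_zero hp2 j l (by rw [h]; ring)
  rw [if_neg hne, char_neg_of_three hp] at e2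
  have key : ∑ k, Mp p k j * Mp p k l
      = ((if kap p j = kap p l then (p : ℤ) else 0) - 1
          - quadraticChar (ZMod p) (kap p j) * quadraticChar (ZMod p) (kap p l))
        + (0 - 1 - quadraticChar (ZMod p) (kap p j) * -quadraticChar (ZMod p) (kap p l)) := by
    rw [← e1, ← e2, ← Finset.sum_add_distrib]
    refine Finset.sum_congr rfl fun k _ => ?_
    simp only [Mp, Matrix.of_apply]
    rw [show -kap p k + kap p j = -(kap p k - kap p j) by ring, char_neg_of_three hp (kap p k - kap p j),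
      show -kap p k + -kap p l = -(kap p k + kap p l) by ring, char_neg_of_three hp (kap p k + kap p l),
      show -kap p k + kap p l = -(kap p k - kap p l) by ring, char_neg_of_three hp (kap p k - kap p l),
      show kap p k + -kap p l = kap p k - kap p l by ring]
    ring
  rw [key]
  simp only [kap_inj]
  split_ifs <;> ring

/-- `M Mᵀ = p - 2 c cᵀ` -/
lemma MMt (hp : p % 4 = 3) (j l : Fin ((p - 1) / 2)) :
    ∑ k, Mp p j k * Mp p l k = (if j = l then (p : ℤ) else 0) - 2 * (cvec p j * cvec p l) := by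
  have hp2 : p ≠ 2 := by rintro rfl; norm_num at hp
  have e1 := sum_prod_general hp2 (kap p j) (kap p l)
  have e2 := sum_prod_general hp2 (kap p j) (-kap p l)
  have hne : kap p j ≠ - kap p l := fun h => kap_add_ne_zero hp2 j l (by rw [h]; ring)
  rw [if_neg hne, char_neg_of_three hp] at e2
  have key : ∑ k, Mp p j k * Mp p l k
      = ((if kap p j = kap p l then (p : ℤ) else 0) - 1
          - quadraticChar (ZMod p) (kap p j) * quadraticChar (ZMod p) (kap p l))
        - (0 - 1 - quadraticChar (ZMod p) (kap p j) * -quadraticChar (ZMod p) (kap p l)) := by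
    rw [← e1, ← e2, ← Finset.sum_sub_distrib]
    refine Finset.sum_congr rfl fun k _ => ?_
    simp only [Mp, Matrix.of_apply]
    rw [show kap p j + kap p k = kap p k + kap p j by ring,
      show kap p j - kap p k = -kap p k + kap p j by ring,
      show kap p l + kap p k = kap p k + kap p l by ring,
      show kap p l - kap p k = -kap p k + kap p l by ring,
      show -kap p k + -kap p l = -(kap p k + kap p l) by ring, char_neg_of_three hp (kap p k + kap p l),
      show kap p k + -kap p l = -(-kap p k + kap p l) by ring,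
      char_neg_of_three hp (-kap p k + kap p l)]
    ring
  rw [key]
  simp only [kap_inj, cvec]
  split_ifs <;> ring

/-- `χ(2)` for `p ≡ 3 mod 4` -/
lemma chi_two (hp : p % 4 = 3) :
    quadraticChar (ZMod p) 2 = - (-1) ^ ((p - 3) / 4) := by
  have hp2 : p ≠ 2 := by rintro rfl; norm_num at hp
  have h := legendreSym.at_two (p := p) hp2
  have h' : legendreSym p 2 = quadraticChar (ZMod p) 2 := by
    simp [legendreSym]
  rw [← h', h]
  have h8 : p % 8 = 3 ∨ p % 8 = 7 := by omega
  rw [ZMod.χ₈_nat_eq_if_mod_eight]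
  rcases h8 with h8 | h8
  · have : Even ((p - 3) / 4) := ⟨p / 8, by omega⟩
    rw [this.neg_one_pow]
    simp [h8]
    omega
  · have : Odd ((p - 3) / 4) := ⟨p / 8, by omega⟩
    rw [this.neg_one_pow]
    simp [h8]
    omega

lemma det_Mp_sq_three (hp : p % 4 = 3) : (Mp p).det ^ 2 = ((p : ℤ) ^ ((p - 3) / 4)) ^ 2 := by
  have hp2 : p ≠ 2 := by rintro rfl; norm_num at hp
  have hp' : p.Prime := Fact.out
  have hp0 : (p : ℚ) ≠ 0 := by exact_mod_cast hp'.ne_zero
  let U : Matrix (Fin ((p - 1) / 2)) (Fin 1) ℚ := Matrix.of fun _ _ => 1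
  let V : Matrix (Fin 1) (Fin ((p - 1) / 2)) ℚ := Matrix.of fun _ _ => 2
  have hMM : ((Mp p)ᵀ * (Mp p)).map (Int.cast : ℤ → ℚ) = (p : ℚ) • 1 - U * V := by
    ext j l
    rw [Matrix.map_apply, Matrix.mul_apply]
    simp only [Matrix.transpose_apply]
    rw [MtM hp]
    simp only [Matrix.sub_apply, Matrix.smul_apply, Matrix.one_apply, Matrix.mul_apply,
      U, V, Matrix.of_apply, smul_eq_mul]
    split_ifs <;> simp
  have hdet : (((Mp p).det : ℤ) : ℚ) ^ 2 = ((p : ℚ) • 1 - U * V).det := by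
    rw [← hMM]
    have := (Int.castRingHom ℚ).map_det ((Mp p)ᵀ * (Mp p))
    simp only [RingHom.mapMatrix_apply, Int.coe_castRingHom] at this
    rw [← this, Matrix.det_mul, Matrix.det_transpose]
    push_cast
    ring
  have hVU : (p : ℚ) • (1 : Matrix (Fin 1) (Fin 1) ℚ) - V * U = 1 := by
    have hn : (p : ℚ) = 2 * (((p - 1) / 2 : ℕ) : ℚ) + 1 := by
      have : p = 2 * ((p - 1) / 2) + 1 := by omega
      exact_mod_cast this
    ext a b
    rw [Matrix.sub_apply, Matrix.smul_apply, Matrix.mul_apply]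
    fin_cases a; fin_cases b
    simp [U, V]; linarith
  have hsc := det_scaled' (p : ℚ) hp0 U V
  rw [hVU, Matrix.det_one, mul_one, ← hdet, pow_one] at hsc
  have h3 : (p : ℤ) * (Mp p).det ^ 2 = (p : ℤ) ^ ((p - 1) / 2) := by exact_mod_cast hsc
  have h4 : (p : ℤ) ^ ((p - 1) / 2) = (p : ℤ) * (p : ℤ) ^ (((p - 3) / 4) * 2) := by
    rw [← pow_succ']
    congr 1
    omega
  rw [h4] at h3
  have hp0' : (p : ℤ) ≠ 0 := by exact_mod_cast hp'.ne_zero
  rw [mul_left_cancel₀ hp0' h3, ← pow_mul]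

omit [Fact p.Prime] in
lemma pow_mod_four_three (hp : p % 4 = 3) (k : ℕ) :
    ∃ m : ℤ, (p : ℤ) ^ k = (-1) ^ k * (1 + 4 * m) := by
  induction k with
  | zero => exact ⟨0, by simp⟩
  | succ k ih =>
    obtain ⟨m, hm⟩ := ih
    obtain ⟨l, hl⟩ : ∃ l : ℤ, (p : ℤ) = -1 + 4 * l := ⟨((p : ℤ) + 1) / 4, by omega⟩
    refine ⟨m - l - 4 * m * l, ?_⟩
    rw [pow_succ, hm, pow_succ]
    conv_lhs => rw [hl]
    ring

/-- value of `det (χ(j+k) + χ(j-k))`, `p ≡ 3 mod 4` -/
lemma det_Mp_three (hp : p % 4 = 3) :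
    (Mp p).det = - (∏ i, cvec p i) * (p : ℤ) ^ ((p - 3) / 4) := by
  have hp2 : p ≠ 2 := by rintro rfl; norm_num at hp
  have h1 := det_Mp_sq_three hp
  obtain ⟨N, hN, -⟩ := prod_pm (cvec p) cvec_sq
  have h2 := det_Mp_mod hp2
  rw [Finset.prod_mul_distrib] at h2
  simp only [prod_const, card_univ, Fintype.card_fin] at h2
  have hc2 : quadraticChar (ZMod p) 2 * quadraticChar (ZMod p) 2 = 1 := by
    rw [← sq]; exact quadraticChar_sq_one (two_ne_zero' hp2)
  have h4 : (p - 1) / 2 = 2 * ((p - 3) / 4) + 1 := by omega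
  have h5 : quadraticChar (ZMod p) 2 ^ ((p - 1) / 2) = quadraticChar (ZMod p) 2 := by
    rw [h4, pow_succ, pow_mul, sq, hc2, one_pow, one_mul]
  rw [h5] at h2
  have he : quadraticChar (ZMod p) 2 * ∏ i, cvec p i = 1
      ∨ quadraticChar (ZMod p) 2 * ∏ i, cvec p i = -1 := by
    apply mul_self_eq_one_iff.1
    rw [hN]
    have : ((-1 : ℤ) ^ N) * (-1) ^ N = 1 := by
      rw [← mul_pow]; simp
    linear_combination (((-1 : ℤ) ^ N) * (-1) ^ N) * hc2 + this
  have h3 := sign_resolve h1 he (neg_one_pow_eq_or ℤ _) h2 (pow_mod_four_three hp _)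
  rw [h3, chi_two hp]
  have : ((-1 : ℤ) ^ ((p - 3) / 4)) * (-1) ^ ((p - 3) / 4) = 1 := by
    rw [← mul_pow]; simp
  linear_combination (-(∏ i, cvec p i) * (p : ℤ) ^ ((p - 3) / 4)) * this

/-- main determinant identity in any commutative ring in which `p` is invertible -/
theorem det_E_three (hp : p % 4 = 3) {R : Type*} [CommRing R] (ip : R) (hip : ip * (p : R) = 1)
    (x y w : R) :
    (Matrix.of fun j k : Fin ((p - 1) / 2) =>
      x + ((Mp p j k : ℤ) : R) + ((cvec p j : ℤ) : R) * y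
        + ((cvec p j : ℤ) : R) * ((cvec p k : ℤ) : R) * w).det
      = (((Mp p).det : ℤ) : R) * (1 - (((p - 1) / 2 : ℕ) : R) * y - ((sS p : ℤ) : R) * (w + x)
          + ip * (((sS p ^ 2 + (((p - 1) / 2 : ℕ) : ℤ) * tT p : ℤ)) : R) * (w * x)) := by
  have hp2 : p ≠ 2 := by rintro rfl; norm_num at hp
  let M : Matrix (Fin ((p - 1) / 2)) (Fin ((p - 1) / 2)) R := (Mp p).map (Int.cast : ℤ → R)
  let u : Fin ((p - 1) / 2) → ℤ := fun j => ∑ k, Mp p k j - 2 * sS p
  let U : Matrix (Fin ((p - 1) / 2)) (Fin 2) R := Matrix.of fun j => ![ip * ((u j : ℤ) : R), 1]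
  let V : Matrix (Fin 2) (Fin ((p - 1) / 2)) R :=
    Matrix.of ![fun _ => x, fun k => - y - w * ((cvec p k : ℤ) : R)]
  have hn : (p : ℤ) = 2 * (((p - 1) / 2 : ℕ) : ℤ) + 1 := by omega
  -- `M u = p`
  have hMu : ∀ j, ∑ k, Mp p j k * u k = (p : ℤ) := by
    intro j
    have e1 : ∑ k, Mp p j k * u k
        = ∑ l, ∑ k, Mp p j k * Mp p l k - 2 * sS p * ∑ k, Mp p j k := by
      simp only [u, mul_sub, Finset.sum_sub_distrib, Finset.mul_sum]
      rw [Finset.sum_comm]
      congr 1
      refine Finset.sum_congr rfl fun k _ => ?_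
      ring
    rw [e1, Mp_mul_one hp2]
    simp only [MMt hp, Finset.sum_sub_distrib, Finset.sum_ite_eq, Finset.mem_univ, if_true]
    have e2 : ∑ l, 2 * (cvec p j * cvec p l) = 2 * cvec p j * sS p := by
      rw [sS, Finset.mul_sum]
      refine Finset.sum_congr rfl fun l _ => ?_
      ring
    rw [e2]
    ring
  -- `1ᵀ u = - p s`
  have h1u : ∑ k, u k = - (p : ℤ) * sS p := by
    simp only [u, Finset.sum_sub_distrib]
    rw [Finset.sum_comm]
    simp only [Mp_mul_one hp2, Finset.sum_neg_distrib, Finset.sum_const, Finset.card_univ,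
      Fintype.card_fin, nsmul_eq_mul]
    rw [← sS, hn]
    ring
  -- `cᵀ u = t - 2 s²`
  have hcu : ∑ k, cvec p k * u k = tT p - 2 * sS p ^ 2 := by
    simp only [u, mul_sub, Finset.sum_sub_distrib, Finset.mul_sum]
    rw [Finset.sum_comm, tT]
    congr 1
    · refine Finset.sum_congr rfl fun j _ => Finset.sum_congr rfl fun k _ => ?_
      ring
    · rw [← Finset.sum_mul, ← sS]
      ring
  have hMU : M * U = Matrix.of fun j => ![(1 : R), -((cvec p j : ℤ) : R)] := by
    ext j a
    rw [Matrix.mul_apply]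
    fin_cases a
    · simp only [M, U, Matrix.map_apply, Matrix.of_apply]
      simp only [Fin.zero_eta, Matrix.cons_val_zero]
      have := congrArg (Int.cast : ℤ → R) (hMu j)
      push_cast at this
      rw [← hip, ← this, Finset.mul_sum]
      refine Finset.sum_congr rfl fun k _ => ?_
      ring
    · simp only [M, U, Matrix.map_apply, Matrix.of_apply]
      simp only [Fin.mk_one, Matrix.cons_val_one, Matrix.cons_val_fin_one, mul_one]
      exact_mod_cast congrArg (Int.cast : ℤ → R) (Mp_mul_one hp2 j)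
  have hD : (Matrix.of fun j k : Fin ((p - 1) / 2) =>
      x + ((Mp p j k : ℤ) : R) + ((cvec p j : ℤ) : R) * y
        + ((cvec p j : ℤ) : R) * ((cvec p k : ℤ) : R) * w) = M * (1 + U * V) := by
    rw [mul_add, mul_one, ← Matrix.mul_assoc, hMU]
    ext j k
    simp only [Matrix.add_apply, Matrix.of_apply, Matrix.mul_apply, Fin.sum_univ_two, V, M,
      Matrix.map_apply, Matrix.cons_val_zero, Matrix.cons_val_one]
    ring
  rw [hD, Matrix.det_mul, Matrix.det_one_add_mul_comm]
  have hdM : M.det = (((Mp p).det : ℤ) : R) := by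
    have := (Int.castRingHom R).map_det (Mp p)
    simp only [RingHom.mapMatrix_apply, Int.coe_castRingHom] at this
    rw [show M = (Mp p).map (Int.cast : ℤ → R) from rfl, ← this]
  have h1uR : ∑ k, ((u k : ℤ) : R) = - (p : R) * ((sS p : ℤ) : R) := by
    have := congrArg (Int.cast : ℤ → R) h1u
    rw [Int.cast_sum, Int.cast_mul, Int.cast_neg, Int.cast_natCast] at this
    exact this
  have hcuR : ∑ k, ((cvec p k : ℤ) : R) * ((u k : ℤ) : R)
      = ((tT p : ℤ) : R) - 2 * ((sS p : ℤ) : R) ^ 2 := by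
    exact_mod_cast congrArg (Int.cast : ℤ → R) hcu
  have hsR : ∑ k, ((cvec p k : ℤ) : R) = ((sS p : ℤ) : R) := by
    rw [sS]; push_cast; rfl
  have h00 : (V * U) 0 0 = - (((sS p : ℤ) : R) * x) := by
    rw [Matrix.mul_apply]
    have : ∑ j, V 0 j * U j 0 = x * (ip * ∑ k, ((u k : ℤ) : R)) := by
      rw [Finset.mul_sum, Finset.mul_sum]
      refine Finset.sum_congr rfl fun k _ => ?_
      simp [U, V]
    rw [this, h1uR]
    linear_combination (-(x * ((sS p : ℤ) : R))) * hip
  have h01 : (V * U) 0 1 = (((p - 1) / 2 : ℕ) : R) * x := by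
    rw [Matrix.mul_apply]
    simp [U, V]
  have h10 : (V * U) 1 0 = ((sS p : ℤ) : R) * y
      - ip * w * (((tT p : ℤ) : R) - 2 * ((sS p : ℤ) : R) ^ 2) := by
    rw [Matrix.mul_apply]
    have : ∑ j, V 1 j * U j 0 = - (y * ip * ∑ k, ((u k : ℤ) : R))
        - ip * w * ∑ k, ((cvec p k : ℤ) : R) * ((u k : ℤ) : R) := by
      rw [Finset.mul_sum, Finset.mul_sum, ← Finset.sum_neg_distrib, ← Finset.sum_sub_distrib]
      refine Finset.sum_congr rfl fun k _ => ?_
      simp [U, V]
      ring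
    rw [this, h1uR, hcuR]
    linear_combination (y * ((sS p : ℤ) : R)) * hip
  have h11 : (V * U) 1 1 = - ((((p - 1) / 2 : ℕ) : R) * y) - ((sS p : ℤ) : R) * w := by
    rw [Matrix.mul_apply]
    have : ∑ j, V 1 j * U j 1 = - ((((p - 1) / 2 : ℕ) : R) * y)
        - w * ∑ k, ((cvec p k : ℤ) : R) := by
      have h : ∀ k ∈ (univ : Finset (Fin ((p - 1) / 2))), V 1 k * U k 1
          = -y - w * ((cvec p k : ℤ) : R) := by
        intro k _
        simp [U, V]
      rw [Finset.sum_congr rfl h, Finset.sum_sub_distrib, Finset.mul_sum]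
      simp
    rw [this, hsR]
    ring
  have hnR : (p : R) = 2 * (((p - 1) / 2 : ℕ) : R) + 1 := by
    exact_mod_cast congrArg (Int.cast : ℤ → R) hn
  rw [hdM, Matrix.det_fin_two]
  simp only [Matrix.add_apply, h00, h01, h10, h11, Matrix.one_apply_eq, Matrix.one_apply_ne,
    ne_eq, zero_ne_one, one_ne_zero, not_false_eq_true, Int.cast_add, Int.cast_mul, Int.cast_pow,
    Int.cast_natCast]
  congr 1
  rw [hnR] at hip
  linear_combination (((sS p : ℤ) : R) ^ 2 * w * x) * (-hip)

end Pool.Agent.Lib.MP_fe1d70_nt
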