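import Mathlib
import Pool.Agent.Lib.MP_fe1d70_nt.QField2
import Pool.Agent.Lib.MP_fe1d70_nt.Ideals
import Pool.Agent.Lib.MP_fe1d70_nt.Three

namespace Pool.Agent.Lib.MP_fe1d70_nt

open Module NumberField Ideal

section roots

variable {p : ℕ} [Fact p.Prime] {K : Type*} [Field K] [NumberField K] {α : K}

/-- the reduction homomorphism attached to a root of `X² - X + m` -/
noncomputable def phi (hp : p % 4 = 3) (hK : finrank ℚ K = 2) (hα : α ^ 2 = -(p : K)) (q : ℕ)
    (t : ZMod q) (ht : t * t = t - (mm p : ZMod q)) : 𝓞 K →+* ZMod q where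
  toFun x := ((ibasis hp hK hα).repr x 0 : ZMod q) + ((ibasis hp hK hα).repr x 1 : ZMod q) * t
  map_one' := by
    have h := ibasis_repr hp hK hα 1 0
    simp only [Int.cast_one, Int.cast_zero, zero_mul, add_zero] at h
    rw [h.1, h.2]; simp
  map_mul' x y := by
    obtain ⟨a, b, hab⟩ := exists_int_coords hp hK hα x
    obtain ⟨c, d, hcd⟩ := exists_int_coords hp hK hα y
    rw [hab, hcd, int_mul hp hα]
    rw [(ibasis_repr hp hK hα a b).1, (ibasis_repr hp hK hα a b).2,
      (ibasis_repr hp hK hα c d).1, (ibasis_repr hp hK hα c d).2,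
      (ibasis_repr hp hK hα _ _).1, (ibasis_repr hp hK hα _ _).2]
    push_cast
    linear_combination (-(b : ZMod q) * (d : ZMod q)) * ht
  map_zero' := by simp
  map_add' x y := by
    simp only [map_add, Finsupp.add_apply, Int.cast_add]
    ring

lemma phi_apply (hp : p % 4 = 3) (hK : finrank ℚ K = 2) (hα : α ^ 2 = -(p : K)) (q : ℕ)
    (t : ZMod q) (ht : t * t = t - (mm p : ZMod q)) (a b : ℤ) :
    phi hp hK hα q t ht ((a : 𝓞 K) + (b : 𝓞 K) * theta hp hα) = (a : ZMod q) + (b : ZMod q) * t := by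
  change (((ibasis hp hK hα).repr ((a : 𝓞 K) + (b : 𝓞 K) * theta hp hα) 0 : ℤ) : ZMod q)
    + (((ibasis hp hK hα).repr ((a : 𝓞 K) + (b : 𝓞 K) * theta hp hα) 1 : ℤ) : ZMod q) * t = _
  rw [(ibasis_repr hp hK hα a b).1, (ibasis_repr hp hK hα a b).2]

lemma phi_surjective (hp : p % 4 = 3) (hK : finrank ℚ K = 2) (hα : α ^ 2 = -(p : K)) (q : ℕ)
    (t : ZMod q) (ht : t * t = t - (mm p : ZMod q)) : Function.Surjective (phi hp hK hα q t ht) := by
  intro y
  obtain ⟨a, ha⟩ := ZMod.intCast_surjective y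
  refine ⟨((a : ℤ) : 𝓞 K) + ((0 : ℤ) : 𝓞 K) * theta hp hα, ?_⟩
  rw [phi_apply, ← ha]; simp

lemma rr_prime_eq (hp : p % 4 = 3) (hK : finrank ℚ K = 2) (hα : α ^ 2 = -(p : K)) {q : ℕ}
    (hq : q.Prime) :
    rr K q = Nat.card {t : ZMod q // t * t = t - (mm p : ZMod q)} := by
  rw [rr]
  symm
  have hfin : Fact q.Prime := ⟨hq⟩
  refine Nat.card_congr (Equiv.ofBijective
    (fun t : {t : ZMod q // t * t = t - (mm p : ZMod q)} =>
      (⟨RingHom.ker (phi hp hK hα q t.1 t.2), ?_⟩ : {I : Ideal (𝓞 K) // absNorm I = q})) ⟨?_, ?_⟩)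
  · rw [absNorm_apply, Submodule.cardQuot_apply]
    have e := RingHom.quotientKerEquivOfSurjective (phi_surjective hp hK hα q t.1 t.2)
    rw [Nat.card_congr e.toEquiv, Nat.card_zmod]
  · rintro ⟨t, ht⟩ ⟨t', ht'⟩ h
    have h1 : RingHom.ker (phi hp hK hα q t ht) = RingHom.ker (phi hp hK hα q t' ht') :=
      congrArg Subtype.val h
    obtain ⟨a, ha⟩ := ZMod.intCast_surjective t
    have h2 : ((-a : ℤ) : 𝓞 K) + ((1 : ℤ) : 𝓞 K) * theta hp hα ∈ RingHom.ker (phi hp hK hα q t ht) := by
      rw [RingHom.mem_ker, phi_apply, ← ha]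
      simp
    rw [h1, RingHom.mem_ker, phi_apply] at h2
    push_cast at h2
    rw [ha] at h2
    apply Subtype.ext
    change t = t'
    linear_combination -h2
  · rintro ⟨I, hI⟩
    have hcard : Nat.card (𝓞 K ⧸ I) = q := by
      rw [← Submodule.cardQuot_apply, ← absNorm_apply]; exact hI
    have hfinite : Finite (𝓞 K ⧸ I) := Nat.finite_of_card_ne_zero (by rw [hcard]; exact hq.ne_zero)
    have hft : Fintype (𝓞 K ⧸ I) := Fintype.ofFinite _
    have hcard' : Fintype.card (𝓞 K ⧸ I) = q := by rw [← Nat.card_eq_fintype_card]; exact hcard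
    let e : ZMod q ≃+* (𝓞 K ⧸ I) := ZMod.ringEquivOfPrime (𝓞 K ⧸ I) hq hcard'
    let ψ : 𝓞 K →+* ZMod q := (e.symm : (𝓞 K ⧸ I) →+* ZMod q).comp (Ideal.Quotient.mk I)
    have hker : RingHom.ker ψ = I := by
      ext x
      rw [RingHom.mem_ker]
      simp only [ψ, RingHom.comp_apply, RingHom.coe_coe]
      rw [EmbeddingLike.map_eq_zero_iff, Ideal.Quotient.eq_zero_iff_mem]
    have ht : ψ (theta hp hα) * ψ (theta hp hα) = ψ (theta hp hα) - (mm p : ZMod q) := by
      rw [← map_mul, theta_sq, map_sub, map_intCast]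
    refine ⟨⟨ψ (theta hp hα), ht⟩, ?_⟩
    apply Subtype.ext
    change RingHom.ker (phi hp hK hα q (ψ (theta hp hα)) ht) = I
    rw [← hker]
    have heq : phi hp hK hα q (ψ (theta hp hα)) ht = ψ := by
      ext x
      obtain ⟨a, b, hab⟩ := exists_int_coords hp hK hα x
      rw [hab, phi_apply, map_add, map_mul, map_intCast, map_intCast]
    rw [heq]

lemma legendre_neg (hp : p % 4 = 3) {q : ℕ} [Fact q.Prime] (hq2 : q ≠ 2) :
    legendreSym q (-(p : ℤ)) = legendreSym p q := by
  have hq' : q.Prime := Fact.out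
  have hp2 : p ≠ 2 := by rintro rfl; norm_num at hp
  have hodd : q % 2 = 1 := (Nat.Prime.eq_two_or_odd hq').resolve_left hq2
  rw [legendreSym.at_neg hq2]
  have h4 : q % 4 = 1 ∨ q % 4 = 3 := by omega
  rcases h4 with h4 | h4
  · rw [ZMod.χ₄_nat_one_mod_four h4, one_mul]
    exact (legendreSym.quadratic_reciprocity_one_mod_four h4 hp2).symm
  · rw [ZMod.χ₄_nat_three_mod_four h4, legendreSym.quadratic_reciprocity_three_mod_four hp h4]
    ring

lemma roots_two_odd : Nat.card {t : ZMod 2 // t * t = t - 1} = 0 := by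
  have hd : ∀ t : ZMod 2, ¬ (t * t = t - 1) := by decide
  rw [Nat.card_eq_zero]
  left
  exact ⟨fun t => hd t.1 t.2⟩

lemma roots_two_even : Nat.card {t : ZMod 2 // t * t = t - 0} = 2 := by
  have hd : ∀ t : ZMod 2, t * t = t - 0 := by decide
  rw [Nat.card_congr (Equiv.subtypeUnivEquiv hd), Nat.card_zmod]

/-- number of roots of `X² - X + m` modulo a prime `q` -/
lemma card_roots (hp : p % 4 = 3) {q : ℕ} (hq : q.Prime) :
    (Nat.card {t : ZMod q // t * t = t - (mm p : ZMod q)} : ℤ)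
      = 1 + quadraticChar (ZMod p) (q : ZMod p) := by
  have hfact : Fact q.Prime := ⟨hq⟩
  by_cases hq2 : q = 2
  · subst hq2
    have h8 : p % 8 = 3 ∨ p % 8 = 7 := by omega
    have hchi := chi_two (p := p) hp
    push_cast
    rw [hchi]
    rcases h8 with h8 | h8
    · have he : Even ((p - 3) / 4) := ⟨p / 8, by omega⟩
      have hm : (mm p : ZMod 2) = 1 := by
        have : ∃ l : ℤ, mm p = 2 * l + 1 := ⟨mm p / 2, by unfold mm; omega⟩
        obtain ⟨l, hl⟩ := this
        rw [hl]; push_cast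
        rw [show (2 : ZMod 2) = 0 from rfl]; ring
      rw [he.neg_one_pow, hm]
      rw [roots_two_odd]; norm_num
    · have he : Odd ((p - 3) / 4) := ⟨p / 8, by omega⟩
      have hm : (mm p : ZMod 2) = 0 := by
        have : ∃ l : ℤ, mm p = 2 * l := ⟨mm p / 2, by unfold mm; omega⟩
        obtain ⟨l, hl⟩ := this
        rw [hl]; push_cast
        rw [show (2 : ZMod 2) = 0 from rfl]; ring
      rw [he.neg_one_pow, hm]
      rw [roots_two_even]; norm_num
  · have h2 : (2 : ZMod q) ≠ 0 := two_ne_zero' hq2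
    have h4 : (4 : ZMod q) * (mm p : ZMod q) = (p : ZMod q) + 1 := by
      exact_mod_cast congrArg (Int.cast : ℤ → ZMod q) (mm_eq hp)
    have hcs := legendreSym.card_sqrts q hq2 (-(p : ℤ))
    rw [legendre_neg hp hq2] at hcs
    have hl : legendreSym p q = quadraticChar (ZMod p) (q : ZMod p) := by simp [legendreSym]
    rw [← hl, add_comm, ← hcs]
    norm_cast
    rw [← Nat.card_eq_card_toFinset]
    refine Nat.card_congr (Equiv.ofBijective
      (fun t : {t : ZMod q // t * t = t - (mm p : ZMod q)} =>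
        (⟨2 * t.1 - 1, ?_⟩ : {x : ZMod q | x ^ 2 = ((-(p : ℤ) : ℤ) : ZMod q)})) ⟨?_, ?_⟩)
    · have ht := t.2
      simp only [Set.mem_ofPred_eq]
      push_cast
      linear_combination 4 * ht - h4
    · rintro ⟨t, ht⟩ ⟨t', ht'⟩ h
      have h1 : 2 * t - 1 = 2 * t' - 1 := congrArg Subtype.val h
      apply Subtype.ext
      change t = t'
      have : (2 : ZMod q) * t = 2 * t' := by linear_combination h1
      exact mul_left_cancel₀ h2 this
    · rintro ⟨x, hx⟩
      simp only [Set.mem_ofPred_eq] at hx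
      push_cast at hx
      refine ⟨⟨2⁻¹ * (x + 1), ?_⟩, ?_⟩
      · field_simp
        linear_combination hx + h4
      · apply Subtype.ext
        change 2 * (2⁻¹ * (x + 1)) - 1 = x
        field_simp
        ring

/-- value of the ideal counting function at prime powers -/
lemma rr_prime_pow (hp : p % 4 = 3) (hK : finrank ℚ K = 2) (hα : α ^ 2 = -(p : K)) {q : ℕ}
    (hq : q.Prime) (k : ℕ) :
    (rr K (q ^ k) : ℤ) = ∑ i ∈ Finset.range (k + 1), quadraticChar (ZMod p) (q : ZMod p) ^ i := by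
  have hrank : finrank ℤ (𝓞 K) = 2 := by rw [RingOfIntegers.rank, hK]
  have h1 : (rr K q : ℤ) = 1 + quadraticChar (ZMod p) (q : ZMod p) := by
    rw [rr_prime_eq hp hK hα hq, card_roots hp hq]
  by_cases h0 : (q : ZMod p) = 0
  · rw [h0, MulChar.map_zero] at h1 ⊢
    have h2 : Nat.card {I : Ideal (𝓞 K) // absNorm I = q} = 1 := by
      have : (rr K q : ℤ) = 1 := by simpa using h1
      exact_mod_cast this
    rw [Nat.card_eq_one_iff_unique] at h2
    obtain ⟨hs, ⟨⟨P, hP⟩⟩⟩ := h2
    rw [rr_ramified hq hP (fun P' hP' => congrArg Subtype.val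
      (hs.elim (⟨P', hP'⟩ : {I : Ideal (𝓞 K) // absNorm I = q}) ⟨P, hP⟩)) hrank]
    rw [Finset.sum_range_succ']
    simp
  · rcases quadraticChar_dichotomy h0 with h | h
    · rw [h] at h1 ⊢
      have h2 : Nat.card {I : Ideal (𝓞 K) // absNorm I = q} = 2 := by
        have : (rr K q : ℤ) = 2 := by rw [h1]; norm_num
        exact_mod_cast this
      rw [Nat.card_eq_two_iff] at h2
      obtain ⟨⟨P, hP⟩, ⟨P', hP'⟩, hne, -⟩ := h2
      rw [rr_split hq hP hP' (fun h => hne (Subtype.ext h)) hrank]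
      simp
    · rw [h] at h1 ⊢
      have h2 : Nat.card {I : Ideal (𝓞 K) // absNorm I = q} = 0 := by
        have : (rr K q : ℤ) = 0 := by rw [h1]; norm_num
        exact_mod_cast this
      have hno : ∀ P : Ideal (𝓞 K), absNorm P ≠ q := by
        intro P hP
        have : 0 < Nat.card {I : Ideal (𝓞 K) // absNorm I = q} := by
          have : Nonempty {I : Ideal (𝓞 K) // absNorm I = q} := ⟨⟨P, hP⟩⟩
          exact Nat.card_pos
        omega
      induction k using Nat.strong_induction_on with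
      | _ k ih =>
        match k, ih with
        | 0, _ => simp [rr_one]
        | 1, _ =>
          rw [pow_one, h1]
          simp [Finset.sum_range_succ]
        | (k + 2), ih =>
          rw [rr_inert hq hno hrank, ih k (by omega), Finset.sum_range_succ _ (k + 2),
            Finset.sum_range_succ _ (k + 1)]
          ring

end roots

end Pool.Agent.Lib.MP_fe1d70_nt
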