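import Mathlib
import Pool.Agent.Lib.MP_fe1d70_nt.Three

namespace Pool.Agent.Lib.MP_fe1d70_nt

open Finset Matrix

section trig

variable {p : ℕ} [Fact p.Prime]

/-- `sin(2πx/p)` -/
noncomputable def sn (x : ZMod p) : ℝ := (ZMod.stdAddChar x : ℂ).im

/-- `cos(2πx/p)` -/
noncomputable def cn (x : ZMod p) : ℝ := (ZMod.stdAddChar x : ℂ).re

lemma cn_add (x y : ZMod p) : cn (x + y) = cn x * cn y - sn x * sn y := by
  simp only [cn, sn, AddChar.map_add_eq_mul, Complex.mul_re]

lemma sn_add (x y : ZMod p) : sn (x + y) = sn x * cn y + cn x * sn y := by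
  simp only [cn, sn, AddChar.map_add_eq_mul, Complex.mul_im]
  ring

lemma eneg (x : ZMod p) : (ZMod.stdAddChar (-x) : ℂ) = (starRingEnd ℂ) (ZMod.stdAddChar x) := by
  rw [AddChar.map_neg_eq_inv, ZMod.stdAddChar_apply]
  rw [Complex.inv_eq_conj]
  exact Circle.norm_coe _

lemma cn_neg (x : ZMod p) : cn (-x) = cn x := by
  simp only [cn, eneg, Complex.conj_re]

lemma sn_neg (x : ZMod p) : sn (-x) = - sn x := by
  simp only [sn, eneg, Complex.conj_im]

lemma sn_zero : sn (0 : ZMod p) = 0 := by simp [sn]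

lemma sn_mul_sn (x y : ZMod p) : sn x * sn y = (cn (x - y) - cn (x + y)) / 2 := by
  rw [sub_eq_add_neg x y, cn_add, cn_add, cn_neg, sn_neg]; ring

lemma sum_cn (b : ZMod p) : ∑ x : ZMod p, cn (x * b) = if b = 0 then (p : ℝ) else 0 := by
  have h := AddChar.sum_mulShift b (ZMod.isPrimitive_stdAddChar p)
  have h2 := congrArg Complex.re h
  rw [Complex.re_sum] at h2
  rw [show ∑ x : ZMod p, cn (x * b) = ∑ x : ZMod p, (ZMod.stdAddChar (x * b) : ℂ).re from rfl, h2]
  split_ifs <;> simp [ZMod.card]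

lemma sum_sn : ∑ x : ZMod p, sn x = 0 := by
  have h := AddChar.sum_mulShift (1 : ZMod p) (ZMod.isPrimitive_stdAddChar p)
  have h2 := congrArg Complex.im h
  rw [Complex.im_sum] at h2
  simp only [mul_one, one_ne_zero, if_false] at h2
  rw [show ∑ x : ZMod p, sn x = ∑ x : ZMod p, (ZMod.stdAddChar x : ℂ).im from rfl, h2]
  simp

/-- the Gauss sum `∑ χ(x) sin(2πx/p)` -/
noncomputable def GG (p : ℕ) [Fact p.Prime] : ℝ :=
  ∑ x : ZMod p, (quadraticChar (ZMod p) x : ℝ) * sn x

lemma sum_chi_sn (a : ZMod p) :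
    ∑ x : ZMod p, (quadraticChar (ZMod p) x : ℝ) * sn (a * x)
      = (quadraticChar (ZMod p) a : ℝ) * GG p := by
  by_cases ha : a = 0
  · subst ha; simp [sn_zero]
  · have h2 : (quadraticChar (ZMod p) a : ℝ) * (quadraticChar (ZMod p) a : ℝ) = 1 := by
      have := quadraticChar_sq_one ha
      rw [sq] at this
      exact_mod_cast this
    rw [GG, Finset.mul_sum]
    refine Fintype.sum_equiv (Equiv.mulLeft₀ a ha) _ _ (fun x => ?_)
    change _ = (quadraticChar (ZMod p) a : ℝ) * ((quadraticChar (ZMod p) (a * x) : ℝ) * sn (a * x))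
    rw [map_mul, Int.cast_mul]
    linear_combination (-(quadraticChar (ZMod p) x : ℝ) * sn (a * x)) * h2

lemma half_sum_real (hp : p ≠ 2) (φ : ZMod p → ℝ) (h0 : φ 0 = 0) (he : ∀ x, φ (-x) = φ x) :
    ∑ k : Fin ((p - 1) / 2), φ (kap p k) = (∑ x : ZMod p, φ x) / 2 := by
  have h := half_sum_kap hp φ
  rw [← Finset.add_sum_erase _ _ (mem_univ (0 : ZMod p)), h0, zero_add, ← h]
  simp only [he]
  rw [Finset.sum_add_distrib]
  ring

/-- the sine matrix -/
noncomputable def SM (p : ℕ) [Fact p.Prime] :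
    Matrix (Fin ((p - 1) / 2)) (Fin ((p - 1) / 2)) ℝ :=
  Matrix.of fun j k => sn (kap p j * kap p k)

lemma SM_sq (hp : p ≠ 2) : SM p * SM p = ((p : ℝ) / 4) • (1 : Matrix _ _ ℝ) := by
  ext j l
  rw [Matrix.mul_apply]
  simp only [SM, Matrix.of_apply]
  have h := half_sum_real hp (fun x => sn (kap p j * x) * sn (x * kap p l))
    (by simp [sn_zero]) (by intro x; simp only [mul_neg, neg_mul, sn_neg]; ring)
  rw [h]
  have h2 : ∑ x : ZMod p, sn (kap p j * x) * sn (x * kap p l)
      = (∑ x : ZMod p, cn (x * (kap p j - kap p l)) - ∑ x : ZMod p, cn (x * (kap p j + kap p l))) / 2 := by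
    rw [← Finset.sum_sub_distrib, Finset.sum_div]
    refine Finset.sum_congr rfl fun x _ => ?_
    rw [sn_mul_sn]
    congr 3 <;> ring
  rw [h2, sum_cn, sum_cn, if_neg (kap_add_ne_zero hp j l)]
  simp only [sub_eq_zero, kap_inj, Matrix.smul_apply, Matrix.one_apply, smul_eq_mul]
  split_ifs <;> ring

lemma SM_mul_c (hp : p % 4 = 3) (j : Fin ((p - 1) / 2)) :
    ∑ k, SM p j k * (cvec p k : ℝ) = GG p / 2 * (cvec p j : ℝ) := by
  have hp2 : p ≠ 2 := by rintro rfl; norm_num at hp
  have h := half_sum_real hp2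
    (fun x => sn (kap p j * x) * (quadraticChar (ZMod p) x : ℝ))
    (by simp [sn_zero]) (by
      intro x
      simp only [mul_neg, sn_neg, char_neg_of_three hp, Int.cast_neg]
      ring)
  simp only [SM, Matrix.of_apply, cvec]
  rw [h]
  have h2 := sum_chi_sn (kap p j)
  rw [Finset.sum_congr rfl (fun x _ => mul_comm (sn (kap p j * x)) _), h2]
  ring

lemma SM_trace (hp : p ≠ 2) : (SM p).trace = GG p / 2 := by
  simp only [Matrix.trace, Matrix.diag, SM, Matrix.of_apply]
  have h := half_sum_real hp (fun x => sn (x * x)) (by simp [sn_zero]) (by intro x; simp)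
  rw [h]
  congr 1
  have h1 : ∑ x : ZMod p, sn (x * x)
      = ∑ y : ZMod p, ∑ x ∈ univ.filter (fun x : ZMod p => x ^ 2 = y), sn (x * x) := by
    rw [Finset.sum_fiberwise]
  rw [h1]
  have h2 : ∀ y ∈ (univ : Finset (ZMod p)),
      ∑ x ∈ univ.filter (fun x : ZMod p => x ^ 2 = y), sn (x * x)
        = ((quadraticChar (ZMod p) y : ℝ) + 1) * sn y := by
    intro y _
    have h3 : ∀ x ∈ univ.filter (fun x : ZMod p => x ^ 2 = y), sn (x * x) = sn y := by
      intro x hx
      rw [Finset.mem_filter] at hx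
      rw [← sq, hx.2]
    rw [Finset.sum_congr rfl h3, Finset.sum_const, nsmul_eq_mul]
    congr 1
    have h4 := quadraticChar_card_sqrts (ringChar_ne_two hp) y
    have h5 : {x : ZMod p | x ^ 2 = y}.toFinset = univ.filter (fun x : ZMod p => x ^ 2 = y) := by
      ext x; simp
    rw [h5] at h4
    exact_mod_cast h4
  rw [Finset.sum_congr rfl h2]
  simp only [add_mul, one_mul, Finset.sum_add_distrib, sum_sn, add_zero]
  rfl

lemma SM_herm : (SM p).IsHermitian := by
  ext j k
  simp [SM, mul_comm]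

lemma p_pos_real : (0 : ℝ) < p := by
  have hp' : p.Prime := Fact.out
  exact_mod_cast hp'.pos

lemma GG_sq (hp : p % 4 = 3) : GG p ^ 2 = p := by
  have hp2 : p ≠ 2 := by rintro rfl; norm_num at hp
  have hp' : p.Prime := Fact.out
  have hlt : 0 < (p - 1) / 2 := by
    have := hp'.two_le; omega
  let j : Fin ((p - 1) / 2) := ⟨0, hlt⟩
  have h1 : ∑ k, (SM p * SM p) j k * (cvec p k : ℝ) = (GG p / 2) ^ 2 * (cvec p j : ℝ) := by
    simp only [Matrix.mul_apply, Finset.sum_mul]
    rw [Finset.sum_comm]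
    have : ∀ k ∈ (univ : Finset (Fin ((p - 1) / 2))),
        ∑ l, SM p j k * SM p k l * (cvec p l : ℝ) = SM p j k * (cvec p k : ℝ) * (GG p / 2) := by
      intro k _
      have h := SM_mul_c hp k
      rw [Finset.sum_congr rfl (fun l _ => mul_assoc (SM p j k) (SM p k l) (cvec p l : ℝ)),
        ← Finset.mul_sum, h]
      ring
    rw [Finset.sum_congr rfl this, ← Finset.sum_mul, SM_mul_c hp]
    ring
  rw [SM_sq hp2] at h1
  simp only [Matrix.smul_apply, Matrix.one_apply, smul_eq_mul, mul_ite, mul_one, mul_zero, ite_mul,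
    zero_mul, Finset.sum_ite_eq, Finset.mem_univ, if_true] at h1
  have hc : (cvec p j : ℝ) ≠ 0 := by
    have := cvec_sq j
    intro h
    have h' : cvec p j = 0 := by exact_mod_cast h
    rw [h'] at this
    norm_num at this
  have := mul_right_cancel₀ hc h1
  linarith

end trig

end Pool.Agent.Lib.MP_fe1d70_nt
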