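import Mathlib
import Pool.Agent.Lib.MP_fe1d70_nt.Gauss

namespace Pool.Agent.Lib.MP_fe1d70_nt

open Finset Matrix Polynomial

/-- determinant of `sin ((k+1) θ_j)` for decreasing cosines and positive sines -/
lemma det_sin_sign {n : ℕ} (θ : Fin n → ℝ) (hs : ∀ i, 0 < Real.sin (θ i))
    (hc : ∀ i j, i < j → Real.cos (θ j) < Real.cos (θ i)) :
    ∃ c : ℝ, 0 < c ∧ (Matrix.of fun j k : Fin n => Real.sin (((k : ℕ) + 1 : ℝ) * θ j)).det
      = (-1) ^ (∑ i : Fin n, (Ioi i).card) * c := by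
  -- monic Chebyshev polynomials
  let P : Fin n → ℝ[X] := fun k => C ((1 / 2 : ℝ) ^ (k : ℕ)) * Chebyshev.U ℝ ((k : ℕ) : ℤ)
  have hlead : ∀ k, (P k).Monic := by
    intro k
    rw [Monic, leadingCoeff_mul, leadingCoeff_C, Chebyshev.leadingCoeff_U_natCast, ← mul_pow]
    norm_num
  have hdeg : ∀ k, (P k).natDegree = k := by
    intro k
    have h0 : ((1 / 2 : ℝ) ^ (k : ℕ)) ≠ 0 := by positivity
    rw [natDegree_C_mul h0, Chebyshev.natDegree_U_natCast]
  let v : Fin n → ℝ := fun i => Real.cos (θ i)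
  have hV := det_eval_matrixOfPolynomials_eq_det_vandermonde v P hdeg hlead
  have hmat : (Matrix.of fun j k : Fin n => Real.sin (((k : ℕ) + 1 : ℝ) * θ j))
      = Matrix.diagonal (fun j => Real.sin (θ j)) * (Matrix.of (fun i j => ((P j).eval (v i))))
        * Matrix.diagonal (fun k : Fin n => (2 : ℝ) ^ (k : ℕ)) := by
    ext j k
    rw [Matrix.mul_diagonal, Matrix.diagonal_mul]
    simp only [Matrix.of_apply, P, v, eval_mul, eval_C]
    have h := Chebyshev.U_real_cos (θ j) ((k : ℕ) : ℤ)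
    push_cast at h
    rw [← h]
    have h2 : ((1 / 2 : ℝ) ^ (k : ℕ)) * 2 ^ (k : ℕ) = 1 := by
      rw [← mul_pow]; norm_num
    linear_combination (-(eval (Real.cos (θ j)) (Chebyshev.U ℝ ((k : ℕ) : ℤ)) * Real.sin (θ j))) * h2
  refine ⟨(∏ j, Real.sin (θ j)) * (∏ i : Fin n, ∏ j ∈ Ioi i, (v i - v j))
    * ∏ k : Fin n, (2 : ℝ) ^ (k : ℕ), ?_, ?_⟩
  · refine mul_pos (mul_pos (Finset.prod_pos fun i _ => hs i) ?_)
      (Finset.prod_pos fun i _ => by positivity)
    refine Finset.prod_pos fun i _ => Finset.prod_pos fun j hj => ?_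
    rw [Finset.mem_Ioi] at hj
    exact sub_pos.2 (hc i j hj)
  · rw [hmat, Matrix.det_mul, Matrix.det_mul, Matrix.det_diagonal, Matrix.det_diagonal, ← hV,
      Matrix.det_vandermonde]
    have : ∏ i : Fin n, ∏ j ∈ Ioi i, (v j - v i)
        = (-1) ^ (∑ i : Fin n, (Ioi i).card) * ∏ i : Fin n, ∏ j ∈ Ioi i, (v i - v j) := by
      rw [← Finset.prod_pow_eq_pow_sum, ← Finset.prod_mul_distrib]
      refine Finset.prod_congr rfl fun i _ => ?_
      rw [← Finset.prod_const, ← Finset.prod_mul_distrib]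
      refine Finset.prod_congr rfl fun j _ => ?_
      ring
    rw [this]
    ring

lemma sum_card_Ioi (n : ℕ) : ∑ i : Fin n, (Ioi i).card = n * (n - 1) / 2 := by
  simp only [Fin.card_Ioi]
  rw [← Finset.sum_range_id]
  rw [Finset.sum_range (fun i => i)]
  rw [← Equiv.sum_comp Fin.revPerm]
  refine Finset.sum_congr rfl fun i _ => ?_
  simp [Fin.val_rev]
  omega

section

variable {p : ℕ} [Fact p.Prime]

lemma sn_natCast (m : ℕ) : sn ((m : ℕ) : ZMod p) = Real.sin (2 * Real.pi * m / p) := by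
  rw [sn]
  have h := ZMod.stdAddChar_coe (N := p) (m : ℤ)
  push_cast at h
  rw [h]
  have : (2 * (Real.pi : ℂ) * Complex.I * (m : ℂ) / (p : ℂ))
      = (((2 * Real.pi * m / p : ℝ)) : ℂ) * Complex.I := by
    push_cast; ring
  rw [this, Complex.exp_ofReal_mul_I_im]

lemma SM_entry (j k : Fin ((p - 1) / 2)) :
    SM p j k = Real.sin (((k : ℕ) + 1 : ℝ) * (2 * Real.pi * ((j : ℕ) + 1 : ℝ) / p)) := by
  simp only [SM, Matrix.of_apply]
  rw [kap_eq_cast, kap_eq_cast, ← Nat.cast_mul, sn_natCast]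
  congr 1
  push_cast
  ring

lemma SM_det_sign (_hp : p ≠ 2) :
    ∃ c : ℝ, 0 < c ∧ (SM p).det
      = (-1) ^ (((p - 1) / 2) * ((p - 1) / 2 - 1) / 2) * c := by
  have hp' : p.Prime := Fact.out
  have hp0 : (0 : ℝ) < p := p_pos_real
  have hpi := Real.pi_pos
  have hmain := det_sin_sign (fun j : Fin ((p - 1) / 2) => 2 * Real.pi * ((j : ℕ) + 1 : ℝ) / p)
    ?_ ?_
  · obtain ⟨c, hc, h⟩ := hmain
    refine ⟨c, hc, ?_⟩
    rw [sum_card_Ioi] at h
    rw [← h]
    congr 1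
    ext j k
    rw [SM_entry]; rfl
  · intro i
    have hi := i.2
    have h2 : ((i : ℕ) + 1 : ℝ) * 2 < p := by
      have : ((i : ℕ) + 1) * 2 < p := by omega
      exact_mod_cast this
    apply Real.sin_pos_of_pos_of_lt_pi
    · positivity
    · rw [div_lt_iff₀ hp0]
      nlinarith
  · intro i j hij
    have hi := i.2
    have hj := j.2
    have h2 : ((j : ℕ) + 1 : ℝ) * 2 < p := by
      have : ((j : ℕ) + 1) * 2 < p := by omega
      exact_mod_cast this
    apply Real.cos_lt_cos_of_nonneg_of_le_pi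
    · positivity
    · rw [div_le_iff₀ hp0]
      nlinarith
    · rw [div_lt_div_iff_of_pos_right hp0]
      have : ((i : ℕ) : ℝ) < ((j : ℕ) : ℝ) := by exact_mod_cast hij
      nlinarith

/-- sign of the quadratic Gauss sum for `p ≡ 3 mod 4` -/
theorem GG_eq (hp : p % 4 = 3) : GG p = Real.sqrt p := by
  have hp2 : p ≠ 2 := by rintro rfl; norm_num at hp
  have hp' : p.Prime := Fact.out
  have hp0 : (0 : ℝ) < p := p_pos_real
  set r : ℝ := Real.sqrt p with hr
  have hr0 : 0 < r := Real.sqrt_pos.2 hp0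
  have hr2 : r ^ 2 = p := Real.sq_sqrt hp0.le
  have hH := SM_herm (p := p)
  -- eigenvalues squared
  have hev : ∀ i, hH.eigenvalues i ^ 2 = r ^ 2 / 4 := by
    intro i
    have h1 := hH.mulVec_eigenvectorBasis i
    have h2 : (SM p * SM p) *ᵥ ⇑(hH.eigenvectorBasis i)
        = (hH.eigenvalues i ^ 2) • ⇑(hH.eigenvectorBasis i) := by
      rw [← Matrix.mulVec_mulVec, h1, Matrix.mulVec_smul, h1, smul_smul, sq]
    rw [SM_sq hp2, Matrix.smul_mulVec, Matrix.one_mulVec] at h2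
    have h3 : (⇑(hH.eigenvectorBasis i) : Fin ((p - 1) / 2) → ℝ) ≠ 0 := by
      intro h
      have hn := hH.eigenvectorBasis.orthonormal.1 i
      have : hH.eigenvectorBasis i = 0 := by
        ext k
        exact congrFun h k
      rw [this, norm_zero] at hn
      exact zero_ne_one hn
    have h4 : ((p : ℝ) / 4 - hH.eigenvalues i ^ 2) • (⇑(hH.eigenvectorBasis i) : Fin ((p - 1) / 2) → ℝ)
        = 0 := by
      rw [sub_smul, h2, sub_self]
    rcases smul_eq_zero.1 h4 with h | h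
    · rw [hr2]; linarith
    · exact absurd h h3
  have hpm : ∀ i, hH.eigenvalues i = r / 2 ∨ hH.eigenvalues i = -(r / 2) := by
    intro i
    apply sq_eq_sq_iff_eq_or_eq_neg.1
    rw [hev i]; ring
  -- integer signs
  have hex : ∀ i, ∃ e : ℤ, e * e = 1 ∧ hH.eigenvalues i = r / 2 * (e : ℝ) := by
    intro i
    rcases hpm i with h | h
    · exact ⟨1, by norm_num, by rw [h]; simp⟩
    · exact ⟨-1, by norm_num, by rw [h]; push_cast; ring⟩
  choose e he1 he2 using hex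
  obtain ⟨N, hN1, hN2⟩ := prod_pm e he1
  have htr : GG p / 2 = r / 2 * (((((p - 1) / 2 : ℕ) : ℤ) - 2 * (N : ℤ) : ℤ) : ℝ) := by
    rw [← SM_trace hp2, hH.trace_eq_sum_eigenvalues, ← hN2]
    push_cast
    rw [Finset.mul_sum]
    refine Finset.sum_congr rfl fun i _ => ?_
    rw [he2 i]
    rfl
  have hdet : (SM p).det = (r / 2) ^ ((p - 1) / 2) * (-1) ^ N := by
    rw [hH.det_eq_prod_eigenvalues]
    have : ∀ i ∈ (univ : Finset (Fin ((p - 1) / 2))),
        ((hH.eigenvalues i : ℝ) : ℝ) = r / 2 * (e i : ℝ) := fun i _ => he2 i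
    simp only [RCLike.ofReal_real_eq_id, id]
    rw [Finset.prod_congr rfl this, Finset.prod_mul_distrib, Finset.prod_const, Finset.card_univ,
      Fintype.card_fin]
    congr 1
    have := congrArg (Int.cast : ℤ → ℝ) hN1
    push_cast at this
    exact this
  obtain ⟨c, hc, hsgn⟩ := SM_det_sign (p := p) hp2
  -- parity
  have hpar : Even (N + ((p - 1) / 2) * ((p - 1) / 2 - 1) / 2) := by
    rw [hdet] at hsgn
    have hpos : 0 < (r / 2) ^ ((p - 1) / 2) := by positivity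
    by_contra hodd
    rw [Nat.not_even_iff_odd] at hodd
    have h5 : (-1 : ℝ) ^ N * (-1) ^ (((p - 1) / 2) * ((p - 1) / 2 - 1) / 2) = -1 := by
      rw [← pow_add]; exact hodd.neg_one_pow
    have h6 : (-1 : ℝ) ^ N * (-1) ^ N = 1 := by rw [← mul_pow]; simp
    have h7 : (r / 2) ^ ((p - 1) / 2) = -c := by
      have := congrArg (fun z => (-1 : ℝ) ^ N * z) hsgn
      calc (r / 2) ^ ((p - 1) / 2) = (r / 2) ^ ((p - 1) / 2) * ((-1 : ℝ) ^ N * (-1) ^ N) := by
            rw [h6, mul_one]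
        _ = (-1 : ℝ) ^ N * ((r / 2) ^ ((p - 1) / 2) * (-1) ^ N) := by ring
        _ = (-1 : ℝ) ^ N * ((-1) ^ (((p - 1) / 2) * ((p - 1) / 2 - 1) / 2) * c) := this
        _ = ((-1 : ℝ) ^ N * (-1) ^ (((p - 1) / 2) * ((p - 1) / 2 - 1) / 2)) * c := by ring
        _ = -c := by rw [h5]; ring
    linarith
  have hG2 := GG_sq hp
  have hsq : ((((p - 1) / 2 : ℕ) : ℤ) - 2 * (N : ℤ)) ^ 2 = 1 := by
    have h8 : GG p = r * (((((p - 1) / 2 : ℕ) : ℤ) - 2 * (N : ℤ) : ℤ) : ℝ) := by linarith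
    rw [h8, mul_pow, hr2] at hG2
    have h9 : (((((p - 1) / 2 : ℕ) : ℤ) - 2 * (N : ℤ) : ℤ) : ℝ) ^ 2 = 1 := by
      have hne : (p : ℝ) ≠ 0 := hp0.ne'
      field_simp at hG2
      linarith
    exact_mod_cast h9
  have hval : (((p - 1) / 2 : ℕ) : ℤ) - 2 * (N : ℤ) = 1 := by
    rw [sq] at hsq
    rcases mul_self_eq_one_iff.1 hsq with h | h
    · exact h
    · exfalso
      obtain ⟨a, ha⟩ : ∃ a, (p - 1) / 2 = 2 * a + 1 := ⟨(p - 3) / 4, by omega⟩
      have hNa : N = a + 1 := by omega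
      rw [ha, hNa] at hpar
      have : (2 * a + 1) * (2 * a + 1 - 1) / 2 = (2 * a + 1) * a := by
        have : (2 * a + 1) * (2 * a + 1 - 1) = 2 * ((2 * a + 1) * a) := by
          simp; ring
        rw [this]; simp
      rw [this] at hpar
      obtain ⟨b, hb⟩ := hpar
      have : a + 1 + (2 * a + 1) * a = 2 * (a * a) + 2 * a + 1 := by ring
      omega
  rw [hval] at htr
  push_cast at htr
  linarith

end

end Pool.Agent.Lib.MP_fe1d70_nt
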