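import Mathlib
import Pool.Agent.Lib.MP_fe1d70_nt.GaussSign

namespace Pool.Agent.Lib.MP_fe1d70_nt

open Finset Filter Topology

variable {p : ℕ} [Fact p.Prime]

/-- the sum `∑ a χ(a)` over `0 ≤ a < p` -/
def TT (p : ℕ) [Fact p.Prime] : ℤ := ∑ x : ZMod p, (x.val : ℤ) * quadraticChar (ZMod p) x

lemma val_kap (k : Fin ((p - 1) / 2)) : (kap p k).val = (k : ℕ) + 1 := by
  rw [kap_eq_cast, ZMod.val_natCast, Nat.mod_eq_of_lt]
  have := k.2
  omega

lemma val_neg_kap (k : Fin ((p - 1) / 2)) : ((-kap p k).val : ℤ) = (p : ℤ) - ((k : ℕ) + 1) := by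
  rw [ZMod.neg_val, if_neg (kap_ne_zero k), val_kap]
  have := k.2
  omega

lemma val_two_kap (k : Fin ((p - 1) / 2)) : (2 * kap p k).val = 2 * ((k : ℕ) + 1) := by
  have h : 2 * kap p k = ((2 * ((k : ℕ) + 1) : ℕ) : ZMod p) := by
    rw [kap_eq_cast]; push_cast; ring
  rw [h, ZMod.val_natCast, Nat.mod_eq_of_lt]
  have hp' : p.Prime := Fact.out
  have := k.2
  rcases hp'.eq_two_or_odd with h2 | h2 <;> omega

lemma val_neg_two_kap (hp : p ≠ 2) (k : Fin ((p - 1) / 2)) :
    ((-(2 * kap p k)).val : ℤ) = (p : ℤ) - 2 * ((k : ℕ) + 1) := by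
  rw [ZMod.neg_val, if_neg (mul_ne_zero (two_ne_zero' hp) (kap_ne_zero k)), val_two_kap]
  have hp' : p.Prime := Fact.out
  have := k.2
  rcases hp'.eq_two_or_odd with h2 | h2 <;> omega

/-- `p s = (χ(2) - 2) ∑ a χ(a)` -/
lemma p_mul_sS (hp : p % 4 = 3) :
    (p : ℤ) * sS p = (quadraticChar (ZMod p) 2 - 2) * TT p := by
  have hp2 : p ≠ 2 := by rintro rfl; norm_num at hp
  set Y : ℤ := ∑ k : Fin ((p - 1) / 2), (((k : ℕ) : ℤ) + 1) * cvec p k with hY
  let φ : ZMod p → ℤ := fun x => (x.val : ℤ) * quadraticChar (ZMod p) x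
  have hT0 : TT p = ∑ x ∈ univ.erase (0 : ZMod p), φ x := by
    rw [TT, ← Finset.add_sum_erase _ _ (mem_univ (0 : ZMod p))]
    simp [φ]
  have h1 : TT p = 2 * Y - p * sS p := by
    rw [hT0, ← half_sum_kap hp2 φ, hY, sS, Finset.mul_sum, Finset.mul_sum, ← Finset.sum_sub_distrib]
    refine Finset.sum_congr rfl fun k _ => ?_
    simp only [φ]
    rw [val_kap, val_neg_kap, char_neg_of_three hp, cvec]
    push_cast
    ring
  have h2 : TT p = quadraticChar (ZMod p) 2 * (4 * Y - p * sS p) := by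
    have h3 : ∑ x ∈ univ.erase (0 : ZMod p), φ x = ∑ x ∈ univ.erase (0 : ZMod p), φ (2 * x) := by
      symm
      refine Finset.sum_bij (fun x _ => 2 * x) ?_ ?_ ?_ ?_
      · intro x hx
        simp only [mem_erase, mem_univ, and_true, ne_eq] at hx ⊢
        exact mul_ne_zero (two_ne_zero' hp2) hx
      · intro x _ y _ hxy
        exact mul_left_cancel₀ (two_ne_zero' hp2) hxy
      · intro y hy
        simp only [mem_erase, mem_univ, and_true, ne_eq] at hy
        refine ⟨2⁻¹ * y, ?_, ?_⟩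
        · simp only [mem_erase, mem_univ, and_true, ne_eq, mul_eq_zero, inv_eq_zero, not_or]
          exact ⟨two_ne_zero' hp2, hy⟩
        · rw [← mul_assoc, mul_inv_cancel₀ (two_ne_zero' hp2), one_mul]
      · intro x _; rfl
    rw [hT0, h3, ← half_sum_kap hp2 (fun x => φ (2 * x)), hY, sS, Finset.mul_sum, Finset.mul_sum,
      ← Finset.sum_sub_distrib, Finset.mul_sum]
    refine Finset.sum_congr rfl fun k _ => ?_
    simp only [φ]
    rw [val_two_kap, mul_neg, val_neg_two_kap hp2, char_neg_of_three hp, map_mul, cvec]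
    push_cast
    ring
  have hc2 : quadraticChar (ZMod p) 2 * quadraticChar (ZMod p) 2 = 1 := by
    rw [← sq]; exact quadraticChar_sq_one (two_ne_zero' hp2)
  linear_combination 2 * h1 - (quadraticChar (ZMod p) 2) * h2 - (4 * Y - p * sS p) * hc2

lemma arg_one_sub_exp {θ : ℝ} (h0 : 0 < θ) (h1 : θ < 2 * Real.pi) :
    (1 - Complex.exp (θ * Complex.I)).arg = θ / 2 - Real.pi / 2 := by
  have hs : 0 < 2 * Real.sin (θ / 2) := by
    have := Real.sin_pos_of_pos_of_lt_pi (x := θ / 2) (by linarith) (by linarith)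
    linarith
  have h : (1 - Complex.exp (θ * Complex.I))
      = ((2 * Real.sin (θ / 2) : ℝ) : ℂ)
        * (Complex.cos ((θ / 2 - Real.pi / 2 : ℝ) : ℂ)
          + Complex.sin ((θ / 2 - Real.pi / 2 : ℝ) : ℂ) * Complex.I) := by
    rw [Complex.exp_mul_I, ← Complex.ofReal_cos, ← Complex.ofReal_sin, ← Complex.ofReal_cos,
      ← Complex.ofReal_sin, Real.cos_sub_pi_div_two, Real.sin_sub_pi_div_two]
    have e1 : Real.cos θ = 1 - 2 * Real.sin (θ / 2) * Real.sin (θ / 2) := by
      have := Real.cos_two_mul (θ / 2)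
      have h2 := Real.sin_sq_add_cos_sq (θ / 2)
      rw [show 2 * (θ / 2) = θ by ring] at this
      rw [this]
      nlinarith
    have e2 : Real.sin θ = 2 * Real.sin (θ / 2) * Real.cos (θ / 2) := by
      have := Real.sin_two_mul (θ / 2)
      rwa [show 2 * (θ / 2) = θ by ring] at this
    rw [e1, e2]
    push_cast
    ring
  rw [h, Complex.arg_mul_cos_add_sin_mul_I hs ⟨by linarith [Real.pi_pos], by linarith⟩]

lemma stdAddChar_eq_exp (a : ZMod p) :
    (ZMod.stdAddChar a : ℂ) = Complex.exp (((2 * Real.pi * a.val / p : ℝ) : ℂ) * Complex.I) := by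
  have h := ZMod.stdAddChar_coe (N := p) (a.val : ℤ)
  push_cast at h
  rw [ZMod.natCast_zmod_val] at h
  rw [h]
  congr 1
  push_cast
  ring

/-- value of the conditionally convergent `L(1, χ)` -/
theorem L_one_value (hp : p % 4 = 3) (κ : ℝ)
    (hκ : Tendsto (fun n : ℕ => ∑ i ∈ range n, (quadraticChar (ZMod p) (i : ZMod p) : ℝ) / i)
      atTop (𝓝 κ)) :
    κ = - (Real.pi / (p * Real.sqrt p)) * TT p := by
  have hp2 : p ≠ 2 := by rintro rfl; norm_num at hp
  have hp0 : (0 : ℝ) < p := p_pos_real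
  have hG := GG_eq hp
  have hr0 : 0 < Real.sqrt p := Real.sqrt_pos.2 hp0
  -- Abel
  have hA := Real.tendsto_tsum_powerSeries_nhdsWithin_lt hκ
  -- the finite formula for `|x| < 1`
  have hval : ∀ x : ℝ, 0 < x → x < 1 →
      ∑' n : ℕ, (quadraticChar (ZMod p) (n : ZMod p) : ℝ) / n * x ^ n
        = (GG p)⁻¹ * ∑ a : ZMod p, (quadraticChar (ZMod p) a : ℝ)
            * (- (1 - (x : ℂ) * ZMod.stdAddChar a).arg) := by
    intro x hx0 hx1
    have hsum : ∀ a : ZMod p, HasSum (fun n : ℕ => sn (a * (n : ZMod p)) / n * x ^ n)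
        (- (1 - (x : ℂ) * ZMod.stdAddChar a).arg) := by
      intro a
      have hz : ‖(x : ℂ) * ZMod.stdAddChar a‖ < 1 := by
        rw [norm_mul, ZMod.stdAddChar_apply, Circle.norm_coe, mul_one, Complex.norm_real,
          Real.norm_of_nonneg hx0.le]
        exact hx1
      have h1 := Complex.hasSum_taylorSeries_neg_log hz
      have h2 := Complex.hasSum_im h1
      rw [Complex.neg_im, Complex.log_im] at h2
      convert h2 using 1
      ext n
      rw [mul_pow, ← AddChar.map_nsmul_eq_pow, nsmul_eq_mul, mul_comm (n : ZMod p) a,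
        ← Complex.ofReal_pow]
      rw [show ((x ^ n : ℝ) : ℂ) * ZMod.stdAddChar (a * (n : ZMod p)) / (n : ℂ)
        = ((x ^ n / n : ℝ) : ℂ) * ZMod.stdAddChar (a * (n : ZMod p)) by push_cast; ring]
      rw [Complex.im_ofReal_mul, sn]
      ring
    have hsum2 : HasSum (fun n : ℕ => (GG p)⁻¹ * ∑ a : ZMod p, (quadraticChar (ZMod p) a : ℝ)
        * (sn (a * (n : ZMod p)) / n * x ^ n))
        ((GG p)⁻¹ * ∑ a : ZMod p, (quadraticChar (ZMod p) a : ℝ)
            * (- (1 - (x : ℂ) * ZMod.stdAddChar a).arg)) := by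
      apply HasSum.mul_left
      apply hasSum_sum
      intro a _
      exact (hsum a).mul_left _
    rw [← hsum2.tsum_eq]
    congr 1
    ext n
    have h3 := sum_chi_sn (n : ZMod p)
    have h4 : ∑ a : ZMod p, (quadraticChar (ZMod p) a : ℝ) * (sn (a * (n : ZMod p)) / n * x ^ n)
        = (∑ a : ZMod p, (quadraticChar (ZMod p) a : ℝ) * sn ((n : ZMod p) * a)) / n * x ^ n := by
      rw [Finset.sum_div, Finset.sum_mul]
      refine Finset.sum_congr rfl fun a _ => ?_
      rw [mul_comm a (n : ZMod p)]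
      ring
    rw [h4, h3]
    have hG0 : GG p ≠ 0 := by rw [hG]; exact hr0.ne'
    field_simp
  -- limit of the finite formula
  have hlim : Tendsto (fun x : ℝ => (GG p)⁻¹ * ∑ a : ZMod p, (quadraticChar (ZMod p) a : ℝ)
            * (- (1 - (x : ℂ) * ZMod.stdAddChar a).arg)) (𝓝[<] 1)
      (𝓝 ((GG p)⁻¹ * ∑ a : ZMod p, (quadraticChar (ZMod p) a : ℝ)
            * (- (1 - ((1 : ℝ) : ℂ) * ZMod.stdAddChar a).arg))) := by
    refine Tendsto.mono_left ?_ nhdsWithin_le_nhds
    apply Tendsto.const_mul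
    apply tendsto_finsetSum
    intro a _
    by_cases ha : a = 0
    · subst ha
      simp
    · apply Tendsto.const_mul
      apply Tendsto.neg
      have hcont : ContinuousAt (fun x : ℝ => (1 - (x : ℂ) * ZMod.stdAddChar a).arg) 1 := by
        apply ContinuousAt.comp (g := Complex.arg)
        · apply Complex.continuousAt_arg
          left
          rw [Complex.sub_re, Complex.one_re, Complex.ofReal_one, one_mul]
          have hne : (ZMod.stdAddChar a : ℂ) ≠ 1 := by
            intro h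
            apply ha
            have h0 : (ZMod.stdAddChar a : ℂ) = ZMod.stdAddChar (0 : ZMod p) := by
              rw [h, AddChar.map_zero_eq_one]
            exact ZMod.injective_stdAddChar h0
          have hnorm : ‖(ZMod.stdAddChar a : ℂ)‖ = 1 := by
            rw [ZMod.stdAddChar_apply]; exact Circle.norm_coe _
          have hre : (ZMod.stdAddChar a : ℂ).re ≤ 1 := by
            rw [← hnorm]; exact Complex.re_le_norm _
          rcases hre.lt_or_eq with h | h
          · linarith
          · exfalso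
            apply hne
            have h1 := Complex.sq_norm (ZMod.stdAddChar a : ℂ)
            rw [hnorm, Complex.normSq_apply, h] at h1
            have him : (ZMod.stdAddChar a : ℂ).im = 0 := by nlinarith
            exact Complex.ext h him
        · fun_prop
      exact hcont
  have heq : κ = (GG p)⁻¹ * ∑ a : ZMod p, (quadraticChar (ZMod p) a : ℝ)
            * (- (1 - ((1 : ℝ) : ℂ) * ZMod.stdAddChar a).arg) := by
    refine tendsto_nhds_unique hA (hlim.congr' ?_)
    have : Set.Ioo (0 : ℝ) 1 ∈ 𝓝[<] (1 : ℝ) := Ioo_mem_nhdsLT (by norm_num)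
    filter_upwards [this] with x hx
    exact (hval x hx.1 hx.2).symm
  rw [heq]
  have hterm : ∀ a ∈ (univ : Finset (ZMod p)), (quadraticChar (ZMod p) a : ℝ)
      * (- (1 - ((1 : ℝ) : ℂ) * ZMod.stdAddChar a).arg)
      = Real.pi / 2 * (quadraticChar (ZMod p) a : ℝ)
        - Real.pi / p * (((a.val : ℤ) * quadraticChar (ZMod p) a : ℤ) : ℝ) := by
    intro a _
    by_cases ha : a = 0
    · subst ha; simp
    · have hv0 : 0 < a.val := by
        rcases Nat.eq_zero_or_pos a.val with h | h
        · exact absurd ((ZMod.val_eq_zero a).1 h) ha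
        · exact h
      have hv1 : a.val < p := ZMod.val_lt a
      have hv0' : (0 : ℝ) < a.val := by exact_mod_cast hv0
      have hv1' : (a.val : ℝ) < p := by exact_mod_cast hv1
      have hpi := Real.pi_pos
      rw [Complex.ofReal_one, one_mul, stdAddChar_eq_exp, arg_one_sub_exp (by positivity) ?_]
      · push_cast
        field_simp
        ring
      · rw [div_lt_iff₀ hp0]
        nlinarith
  rw [Finset.sum_congr rfl hterm, Finset.sum_sub_distrib, ← Finset.mul_sum, ← Finset.mul_sum]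
  have h0 : ∑ a : ZMod p, (quadraticChar (ZMod p) a : ℝ) = 0 := by
    have := quadraticChar_sum_zero (F := ZMod p) (ringChar_ne_two hp2)
    exact_mod_cast this
  rw [h0, ← Int.cast_sum, ← TT, hG]
  field_simp
  ring

end Pool.Agent.Lib.MP_fe1d70_nt
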