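import Mathlib
import Pool.Agent.Lib.MP_fe1d70_nt.Roots
import Pool.Agent.Lib.MP_fe1d70_nt.Special

namespace Pool.Agent.Lib.MP_fe1d70_nt

open Module NumberField Ideal Filter Topology ArithmeticFunction

section cn

variable {p : ℕ} [Fact p.Prime]

/-- the quadratic character as an arithmetic function -/
def chiA (p : ℕ) [Fact p.Prime] : ArithmeticFunction ℤ :=
  ⟨fun n => quadraticChar (ZMod p) (n : ZMod p), by simp⟩

lemma chiA_apply (n : ℕ) : chiA p n = quadraticChar (ZMod p) (n : ZMod p) := rfl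

lemma chiA_mult : (chiA p).IsMultiplicative := by
  refine ⟨?_, ?_⟩
  · rw [chiA_apply]; simp
  · intro m n _
    rw [chiA_apply, chiA_apply, chiA_apply, Nat.cast_mul, map_mul]

variable {K : Type*} [Field K] [NumberField K] {α : K}

/-- the ideal counting function as an arithmetic function -/
noncomputable def rrA (K : Type*) [Field K] [NumberField K] : ArithmeticFunction ℤ :=
  ⟨fun n => if n = 0 then 0 else (rr K n : ℤ), by simp⟩

lemma rrA_apply {n : ℕ} (hn : n ≠ 0) : rrA K n = (rr K n : ℤ) := by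
  change (if n = 0 then (0 : ℤ) else (rr K n : ℤ)) = _
  rw [if_neg hn]

lemma rrA_mult : (rrA K).IsMultiplicative := by
  refine ⟨?_, ?_⟩
  · rw [rrA_apply one_ne_zero, rr_one]; rfl
  · intro m n h
    by_cases hm : m = 0
    · subst hm
      simp
    by_cases hn : n = 0
    · subst hn
      simp
    rw [rrA_apply hm, rrA_apply hn, rrA_apply (mul_ne_zero hm hn), rr_mul hm hn h]
    push_cast; rfl

lemma rr_eq_sum (hp : p % 4 = 3) (hK : finrank ℚ K = 2) (hα : α ^ 2 = -(p : K)) {n : ℕ}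
    (hn : n ≠ 0) :
    (rr K n : ℤ) = ∑ d ∈ n.divisors, quadraticChar (ZMod p) (d : ZMod p) := by
  have hmul : (((ArithmeticFunction.zeta : ArithmeticFunction ℕ) : ArithmeticFunction ℤ) * chiA p).IsMultiplicative :=
    (isMultiplicative_zeta.natCast).mul chiA_mult
  have h : rrA K = ((ArithmeticFunction.zeta : ArithmeticFunction ℕ) : ArithmeticFunction ℤ) * chiA p := by
    rw [IsMultiplicative.eq_iff_eq_on_prime_powers _ rrA_mult _ hmul]
    intro q k hq
    rw [rrA_apply (pow_ne_zero _ hq.ne_zero), coe_zeta_mul_apply, rr_prime_pow hp hK hα hq,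
      Nat.divisors_prime_pow hq, Finset.sum_map]
    refine Finset.sum_congr rfl fun i _ => ?_
    simp only [Function.Embedding.coeFn_mk, chiA_apply, Nat.cast_pow, map_pow]
  rw [← rrA_apply hn, h, coe_zeta_mul_apply]
  rfl

/-- partial sums of the character are bounded -/
lemma chi_partial_bound (hp2 : p ≠ 2) (n : ℕ) :
    |∑ i ∈ Finset.range n, (quadraticChar (ZMod p) (i : ZMod p) : ℝ)| ≤ p := by
  have hp' : p.Prime := Fact.out
  induction n using Nat.strong_induction_on with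
  | _ n ih =>
    by_cases hn : n < p
    · refine (Finset.abs_sum_le_sum_abs _ _).trans ?_
      have h1 : ∀ i ∈ Finset.range n, |(quadraticChar (ZMod p) (i : ZMod p) : ℝ)| ≤ 1 := by
        intro i _
        by_cases h0 : (i : ZMod p) = 0
        · rw [h0]; simp
        · rcases quadraticChar_dichotomy h0 with h | h <;> rw [h] <;> simp
      refine (Finset.sum_le_sum h1).trans ?_
      simp
      exact_mod_cast hn.le
    · have hn' : n = p + (n - p) := by omega
      have hz : ∑ i ∈ Finset.range p, (quadraticChar (ZMod p) (i : ZMod p) : ℝ) = 0 := by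
        have h1 := sum_erase_zero (fun x : ZMod p => (quadraticChar (ZMod p) x : ℝ))
        have h2 : ∑ x : ZMod p, (quadraticChar (ZMod p) x : ℝ) = 0 := by
          exact_mod_cast quadraticChar_sum_zero (F := ZMod p) (ringChar_ne_two hp2)
        rw [← Finset.add_sum_erase _ _ (Finset.mem_univ (0 : ZMod p)), h1] at h2
        rw [Finset.range_eq_Ico, Finset.sum_eq_sum_Ico_succ_bot hp'.pos]
        simpa using h2
      rw [hn', Finset.sum_range_add, hz, zero_add]
      have h3 : ∑ x ∈ Finset.range (n - p), (quadraticChar (ZMod p) ((p + x : ℕ) : ZMod p) : ℝ)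
          = ∑ x ∈ Finset.range (n - p), (quadraticChar (ZMod p) (x : ZMod p) : ℝ) := by
        refine Finset.sum_congr rfl fun x _ => ?_
        push_cast
        rw [CharP.cast_eq_zero, zero_add]
      rw [h3]
      exact ih (n - p) (by have := hp'.pos; omega)

/-- Abel's inequality -/
lemma abel_ineq (f w : ℕ → ℝ) (P : ℝ) (D : ℕ) (hw0 : ∀ i, 0 ≤ w i)
    (hw : ∀ i, D < i → w (i + 1) ≤ w i)
    (hf : ∀ M, |∑ i ∈ Finset.Ioc D M, f i| ≤ P) (M : ℕ) :
    |∑ i ∈ Finset.Ioc D M, f i * w i| ≤ P * w (D + 1) := by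
  have hP : 0 ≤ P := (abs_nonneg _).trans (hf D)
  have key : ∀ k : ℕ, |∑ i ∈ Finset.Ioc D (D + 1 + k), f i * w i
      - (∑ i ∈ Finset.Ioc D (D + 1 + k), f i) * w (D + 1 + k)| ≤ P * (w (D + 1) - w (D + 1 + k)) := by
    intro k
    induction k with
    | zero =>
      rw [add_zero]
      simp
    | succ k ih =>
      have e1 : ∑ i ∈ Finset.Ioc D (D + 1 + (k + 1)), f i * w i
          = ∑ i ∈ Finset.Ioc D (D + 1 + k), f i * w i + f (D + 1 + (k + 1)) * w (D + 1 + (k + 1)) := by
        rw [show D + 1 + (k + 1) = (D + 1 + k) + 1 by ring]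
        exact Finset.sum_Ioc_succ_top (by omega) _
      have e2 : ∑ i ∈ Finset.Ioc D (D + 1 + (k + 1)), f i
          = ∑ i ∈ Finset.Ioc D (D + 1 + k), f i + f (D + 1 + (k + 1)) := by
        rw [show D + 1 + (k + 1) = (D + 1 + k) + 1 by ring]
        exact Finset.sum_Ioc_succ_top (by omega) _
      rw [e1, e2]
      have e3 : ∑ i ∈ Finset.Ioc D (D + 1 + k), f i * w i + f (D + 1 + (k + 1)) * w (D + 1 + (k + 1))
          - (∑ i ∈ Finset.Ioc D (D + 1 + k), f i + f (D + 1 + (k + 1))) * w (D + 1 + (k + 1))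
          = (∑ i ∈ Finset.Ioc D (D + 1 + k), f i * w i
              - (∑ i ∈ Finset.Ioc D (D + 1 + k), f i) * w (D + 1 + k))
            + (∑ i ∈ Finset.Ioc D (D + 1 + k), f i) * (w (D + 1 + k) - w (D + 1 + (k + 1))) := by ring
      rw [e3]
      refine (abs_add_le _ _).trans ?_
      have hmono : w (D + 1 + (k + 1)) ≤ w (D + 1 + k) := by
        rw [show D + 1 + (k + 1) = (D + 1 + k) + 1 by ring]
        exact hw _ (by omega)
      rw [abs_mul, abs_of_nonneg (sub_nonneg.2 hmono)]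
      have h5 := mul_le_mul_of_nonneg_right (hf (D + 1 + k)) (sub_nonneg.2 hmono)
      nlinarith
  by_cases hM : M ≤ D
  · rw [Finset.Ioc_eq_empty (by omega), Finset.sum_empty, abs_zero]
    exact mul_nonneg hP (hw0 _)
  · obtain ⟨k, hk⟩ : ∃ k, M = D + 1 + k := ⟨M - (D + 1), by omega⟩
    rw [hk]
    have h1 := key k
    have h2 := hf (D + 1 + k)
    have h3 : |(∑ i ∈ Finset.Ioc D (D + 1 + k), f i) * w (D + 1 + k)| ≤ P * w (D + 1 + k) := by
      rw [abs_mul, abs_of_nonneg (hw0 _)]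
      exact mul_le_mul_of_nonneg_right h2 (hw0 _)
    calc |∑ i ∈ Finset.Ioc D (D + 1 + k), f i * w i|
        = |(∑ i ∈ Finset.Ioc D (D + 1 + k), f i * w i
              - (∑ i ∈ Finset.Ioc D (D + 1 + k), f i) * w (D + 1 + k))
            + (∑ i ∈ Finset.Ioc D (D + 1 + k), f i) * w (D + 1 + k)| := by congr 1; ring
      _ ≤ _ := abs_add_le _ _
      _ ≤ P * (w (D + 1) - w (D + 1 + k)) + P * w (D + 1 + k) := add_le_add h1 h3
      _ = P * w (D + 1) := by ring

/-- summation of the ideal counting function -/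
lemma sum_rr (hp : p % 4 = 3) (hK : finrank ℚ K = 2) (hα : α ^ 2 = -(p : K)) (N : ℕ) :
    ∑ n ∈ Finset.Ioc 0 N, (rr K n : ℝ)
      = ∑ d ∈ Finset.Ioc 0 N, (quadraticChar (ZMod p) (d : ZMod p) : ℝ) * ((N / d : ℕ) : ℝ) := by
  have h1 : ∀ n ∈ Finset.Ioc 0 N, (rr K n : ℝ)
      = ∑ d ∈ Finset.Ioc 0 N, if d ∣ n then (quadraticChar (ZMod p) (d : ZMod p) : ℝ) else 0 := by
    intro n hn
    rw [Finset.mem_Ioc] at hn
    have h2 := rr_eq_sum hp hK hα (n := n) (by omega)
    have h3 : (rr K n : ℝ) = ((rr K n : ℤ) : ℝ) := by push_cast; rfl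
    rw [h3, h2, ← Finset.sum_filter]
    push_cast
    refine Finset.sum_congr ?_ (fun _ _ => rfl)
    ext d
    simp only [Nat.mem_divisors, Finset.mem_filter, Finset.mem_Ioc]
    constructor
    · rintro ⟨hd, _⟩
      have := Nat.pos_of_dvd_of_pos hd (by omega)
      have := Nat.le_of_dvd (by omega) hd
      exact ⟨⟨by omega, by omega⟩, hd⟩
    · rintro ⟨_, hd⟩
      exact ⟨hd, by omega⟩
  rw [Finset.sum_congr rfl h1, Finset.sum_comm]
  refine Finset.sum_congr rfl fun d _ => ?_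
  rw [← Finset.sum_filter, Finset.sum_const, Nat.Ioc_filter_dvd_card_eq_div, nsmul_eq_mul, mul_comm]

lemma tendsto_sum_rr (hp : p % 4 = 3) (hp3 : 3 < p) (hK : finrank ℚ K = 2)
    (hα : α ^ 2 = -(p : K)) :
    Tendsto (fun N : ℕ => (∑ n ∈ Finset.Ioc 0 N, (rr K n : ℝ)) / N) atTop
      (𝓝 (Real.pi * classNumber K / Real.sqrt p)) := by
  rw [← residue_eq hp hp3 hK hα]
  have h := (Ideal.tendsto_norm_le_div_atTop₀ K).comp tendsto_natCast_atTop_atTop
  refine h.congr fun n ↦ ?_
  simp only [Function.comp_apply, Nat.cast_le, ← Nat.cast_sum]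
  congr
  rw [← add_left_inj 1, ← card_norm_le_eq_card_norm_le_add_one,
    show 1 = Nat.card {I : Ideal (𝓞 K) // absNorm I = 0} by simp [Ideal.absNorm_eq_zero_iff]]
  simp only [rr]
  rw [Finset.sum_Ioc_add_eq_sum_Icc (n.zero_le),
    ← Finset.card_preimage_eq_sum_card_image_eq (fun k _ ↦ finite_setOfPred_absNorm_eq k)]
  simp [Set.coe_eq_subtype]

/-- the conditionally convergent sum `∑ χ(n)/n` -/
lemma tendsto_L (hp : p % 4 = 3) (hp3 : 3 < p) (hK : finrank ℚ K = 2) (hα : α ^ 2 = -(p : K)) :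
    Tendsto (fun n : ℕ => ∑ i ∈ Finset.range n, (quadraticChar (ZMod p) (i : ZMod p) : ℝ) / i)
      atTop (𝓝 (Real.pi * classNumber K / Real.sqrt p)) := by
  have hp2 : p ≠ 2 := by omega
  set κ : ℝ := Real.pi * classNumber K / Real.sqrt p with hκ
  have hlim := tendsto_sum_rr hp hp3 hK hα
  -- the bound on blocks
  have hblock : ∀ D M : ℕ, |∑ i ∈ Finset.Ioc D M, (quadraticChar (ZMod p) (i : ZMod p) : ℝ)|
      ≤ 2 * p := by
    intro D M
    by_cases hM : M ≤ D
    · rw [Finset.Ioc_eq_empty (by omega), Finset.sum_empty, abs_zero]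
      positivity
    · have e : ∑ i ∈ Finset.Ioc D M, (quadraticChar (ZMod p) (i : ZMod p) : ℝ)
          = ∑ i ∈ Finset.range (M + 1), (quadraticChar (ZMod p) (i : ZMod p) : ℝ)
            - ∑ i ∈ Finset.range (D + 1), (quadraticChar (ZMod p) (i : ZMod p) : ℝ) := by
        rw [← Finset.sum_Ico_eq_sub _ (by omega)]
        refine Finset.sum_congr ?_ (fun _ _ => rfl)
        ext i
        simp only [Finset.mem_Ioc, Finset.mem_Ico]
        omega
      rw [e]
      refine (abs_sub _ _).trans ?_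
      have h1 := chi_partial_bound (p := p) hp2 (M + 1)
      have h2 := chi_partial_bound (p := p) hp2 (D + 1)
      linarith
  have hbound : ∀ D : ℕ, |κ - ∑ i ∈ Finset.Ioc 0 D, (quadraticChar (ZMod p) (i : ZMod p) : ℝ) / i|
      ≤ 2 * p / (D + 1) := by
    intro D
    have hfin : Tendsto (fun N : ℕ => ∑ d ∈ Finset.Ioc 0 D,
        (quadraticChar (ZMod p) (d : ZMod p) : ℝ) * (((N / d : ℕ) : ℝ) / N)) atTop
        (𝓝 (∑ i ∈ Finset.Ioc 0 D, (quadraticChar (ZMod p) (i : ZMod p) : ℝ) * (1 / i))) := by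
      apply tendsto_finsetSum
      intro d hd
      rw [Finset.mem_Ioc] at hd
      apply Tendsto.const_mul
      have h1 := (tendsto_nat_floor_div_atTop (R := ℝ) : Tendsto (fun x : ℝ => ((⌊x⌋₊ : ℕ) : ℝ) / x) atTop (𝓝 1))
      have hd0 : (0 : ℝ) < d := by exact_mod_cast hd.1
      have h2 : Tendsto (fun N : ℕ => (N : ℝ) / d) atTop atTop :=
        tendsto_natCast_atTop_atTop.atTop_div_const hd0
      have h3 := (h1.comp h2).div_const (d : ℝ)
      refine h3.congr ?_
      intro N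
      simp only [Function.comp_apply]
      rw [Nat.floor_div_eq_div]
      by_cases hN : (N : ℝ) = 0
      · rw [hN]; simp
      · field_simp
    have hdiff := (hlim.sub hfin).abs
    simp only [mul_one_div] at hdiff
    refine le_of_tendsto hdiff ?_
    filter_upwards [eventually_ge_atTop (D + 1)] with N hN
    have hN0 : (0 : ℝ) < N := by
      have : 0 < N := by omega
      exact_mod_cast this
    rw [sum_rr hp hK hα]
    have hsplit : ∑ d ∈ Finset.Ioc 0 N, (quadraticChar (ZMod p) (d : ZMod p) : ℝ) * ((N / d : ℕ) : ℝ)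
        = ∑ d ∈ Finset.Ioc 0 D, (quadraticChar (ZMod p) (d : ZMod p) : ℝ) * ((N / d : ℕ) : ℝ)
          + ∑ d ∈ Finset.Ioc D N, (quadraticChar (ZMod p) (d : ZMod p) : ℝ) * ((N / d : ℕ) : ℝ) := by
      rw [Finset.sum_Ioc_consecutive _ (by omega) (by omega)]
    rw [hsplit, add_div, Finset.sum_div]
    have e4 : ∑ i ∈ Finset.Ioc 0 D, (quadraticChar (ZMod p) (i : ZMod p) : ℝ) * ((N / i : ℕ) : ℝ) / N
        = ∑ d ∈ Finset.Ioc 0 D, (quadraticChar (ZMod p) (d : ZMod p) : ℝ) * (((N / d : ℕ) : ℝ) / N) := by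
      refine Finset.sum_congr rfl fun d _ => ?_
      ring
    rw [e4, add_sub_cancel_left, abs_div, abs_of_pos hN0, div_le_iff₀ hN0]
    have hab := abel_ineq (fun d => (quadraticChar (ZMod p) (d : ZMod p) : ℝ))
      (fun d => ((N / d : ℕ) : ℝ)) (2 * p) D (fun i => Nat.cast_nonneg _) ?_ (hblock D) N
    · refine hab.trans ?_
      have h6 : ((N / (D + 1) : ℕ) : ℝ) ≤ (N : ℝ) / ((D + 1 : ℕ) : ℝ) := Nat.cast_div_le
      have h7 : (0 : ℝ) ≤ 2 * p := by positivity
      have h8 := mul_le_mul_of_nonneg_left h6 h7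
      refine h8.trans ?_
      push_cast
      rw [mul_div_assoc', div_mul_eq_mul_div]
    · intro i hi
      exact_mod_cast Nat.div_le_div_left (by omega) (by omega)
  -- conclude
  rw [← tendsto_add_atTop_iff_nat 1]
  have hrange : ∀ D : ℕ, ∑ i ∈ Finset.range (D + 1), (quadraticChar (ZMod p) (i : ZMod p) : ℝ) / i
      = ∑ i ∈ Finset.Ioc 0 D, (quadraticChar (ZMod p) (i : ZMod p) : ℝ) / i := by
    intro D
    rw [Finset.range_eq_Ico, Finset.sum_eq_sum_Ico_succ_bot (by omega)]
    simp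
    rfl
  simp only [hrange]
  rw [tendsto_iff_norm_sub_tendsto_zero]
  have hz : Tendsto (fun D : ℕ => 2 * (p : ℝ) / (D + 1)) atTop (𝓝 0) := by
    have := tendsto_one_div_add_atTop_nhds_zero_nat (𝕜 := ℝ)
    have h2 := this.const_mul (2 * (p : ℝ))
    rw [mul_zero] at h2
    refine h2.congr fun D => ?_
    rw [mul_one_div]
  refine squeeze_zero (fun _ => norm_nonneg _) (fun D => ?_) hz
  rw [Real.norm_eq_abs, abs_sub_comm]
  exact hbound D

/-- **Dirichlet's class number formula** for `ℚ(√-p)`, `p ≡ 3 mod 4`, `p > 3` -/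
theorem class_number_formula (hp : p % 4 = 3) (hp3 : 3 < p) (hK : finrank ℚ K = 2)
    (hα : α ^ 2 = -(p : K)) :
    sS p = (2 - quadraticChar (ZMod p) 2) * (classNumber K : ℤ) := by
  have hp' : p.Prime := Fact.out
  have hp0 : (0 : ℝ) < p := p_pos_real
  have hr0 : 0 < Real.sqrt p := Real.sqrt_pos.2 hp0
  have h := L_one_value hp _ (tendsto_L hp hp3 hK hα)
  have h1 : (TT p : ℝ) = - (p : ℝ) * (classNumber K : ℝ) := by
    have hpi : Real.pi ≠ 0 := Real.pi_ne_zero
    field_simp at h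
    linarith
  have h2 : TT p = - (p : ℤ) * (classNumber K : ℤ) := by exact_mod_cast h1
  have h3 := p_mul_sS (p := p) hp
  rw [h2] at h3
  have hp0' : (p : ℤ) ≠ 0 := by exact_mod_cast hp'.ne_zero
  apply mul_left_cancel₀ hp0'
  rw [h3]
  ring

end cn

end Pool.Agent.Lib.MP_fe1d70_nt
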