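import Mathlib
import Pool.Agent.Lib.MP_fe1d70_nt.Three

namespace Pool.Agent.Lib.MP_fe1d70_nt

open Finset Matrix

variable {p : ℕ} [Fact p.Prime]

/-- `v = M c` -/
def vv (p : ℕ) [Fact p.Prime] (j : Fin ((p - 1) / 2)) : ℤ := ∑ k, Mp p j k * cvec p k

lemma char_or {x : ZMod p} (hx : x ≠ 0) :
    quadraticChar (ZMod p) x = 1 ∨ quadraticChar (ZMod p) x = -1 := quadraticChar_dichotomy hx

lemma sum_prod_zero (hp : p % 4 = 3) (j : Fin ((p - 1) / 2)) :
    ∑ k, quadraticChar (ZMod p) (kap p j + kap p k) * quadraticChar (ZMod p) (kap p j - kap p k)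
      = 0 := by
  have hp2 : p ≠ 2 := by rintro rfl; norm_num at hp
  have e := sum_prod_general hp2 (kap p j) (-kap p j)
  have hne : kap p j ≠ - kap p j := fun h => kap_add_ne_zero hp2 j j (by linear_combination h)
  rw [if_neg hne, char_neg_of_three hp] at e
  have hc := cvec_sq j
  rw [cvec] at hc
  have h2 : ∑ k : Fin ((p - 1) / 2), (quadraticChar (ZMod p) (kap p k + kap p j)
      * quadraticChar (ZMod p) (kap p k + -kap p j)
      + quadraticChar (ZMod p) (-kap p k + kap p j)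
        * quadraticChar (ZMod p) (-kap p k + -kap p j))
      = - (2 * ∑ k, quadraticChar (ZMod p) (kap p j + kap p k)
          * quadraticChar (ZMod p) (kap p j - kap p k)) := by
    rw [Finset.mul_sum, ← Finset.sum_neg_distrib]
    refine Finset.sum_congr rfl fun k _ => ?_
    rw [show kap p k + -kap p j = -(kap p j - kap p k) by ring, char_neg_of_three hp (kap p j - kap p k),
      show -kap p k + -kap p j = -(kap p j + kap p k) by ring, char_neg_of_three hp (kap p j + kap p k),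
      show kap p k + kap p j = kap p j + kap p k by ring,
      show -kap p k + kap p j = kap p j - kap p k by ring]
    ring
  rw [h2] at e
  have : (0 : ℤ) - 1 - quadraticChar (ZMod p) (kap p j) * -quadraticChar (ZMod p) (kap p j) = 0 := by
    linear_combination hc
  rw [this] at e
  linarith

lemma vv_mod (hp : p % 4 = 3) (j : Fin ((p - 1) / 2)) : ∃ u : ℤ, vv p j = -1 + 4 * u := by
  have hp2 : p ≠ 2 := by rintro rfl; norm_num at hp
  classical
  have hterm : ∀ k : Fin ((p - 1) / 2), ∃ m : ℤ, Mp p j k * cvec p k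
      = 1 + quadraticChar (ZMod p) (kap p j + kap p k) * quadraticChar (ZMod p) (kap p j - kap p k)
        + (if k = j then quadraticChar (ZMod p) 2 - 1 else 0) + 4 * m := by
    intro k
    by_cases hk : k = j
    · subst hk
      refine ⟨0, ?_⟩
      rw [Mp_diag]
      simp only [sub_self, MulChar.map_zero, mul_zero, if_true]
      linear_combination (quadraticChar (ZMod p) 2) * cvec_sq k
    · simp only [hk, if_false]
      have h1 := char_or (kap_add_ne_zero hp2 j k)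
      have h2 := char_or (sub_ne_zero.2 (fun h' => hk (kap_inj.1 h').symm) : kap p j - kap p k ≠ 0)
      have h3 := char_or (kap_ne_zero (p := p) k)
      simp only [Mp, Matrix.of_apply, cvec]
      rcases h1 with h1 | h1 <;> rcases h2 with h2 | h2 <;> rcases h3 with h3 | h3 <;>
        rw [h1, h2, h3]
      · exact ⟨0, by norm_num⟩
      · exact ⟨-1, by norm_num⟩
      · exact ⟨0, by norm_num⟩
      · exact ⟨0, by norm_num⟩
      · exact ⟨0, by norm_num⟩
      · exact ⟨0, by norm_num⟩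
      · exact ⟨-1, by norm_num⟩
      · exact ⟨0, by norm_num⟩
  choose m hm using hterm
  have hsum : vv p j = (((p - 1) / 2 : ℕ) : ℤ) + (quadraticChar (ZMod p) 2 - 1) + 4 * ∑ k, m k := by
    rw [vv, Finset.sum_congr rfl (fun k _ => hm k)]
    rw [Finset.sum_add_distrib, Finset.sum_add_distrib, Finset.sum_add_distrib, sum_prod_zero hp,
      ← Finset.mul_sum]
    simp
  rw [hsum]
  have h8 : p % 8 = 3 ∨ p % 8 = 7 := by omega
  rw [chi_two hp]
  rcases h8 with h8 | h8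
  · have he : Even ((p - 3) / 4) := ⟨p / 8, by omega⟩
    rw [he.neg_one_pow]
    refine ⟨((((p - 1) / 2 : ℕ) : ℤ) - 1) / 4 + ∑ k, m k, ?_⟩
    omega
  · have he : Odd ((p - 3) / 4) := ⟨p / 8, by omega⟩
    rw [he.neg_one_pow]
    refine ⟨((((p - 1) / 2 : ℕ) : ℤ) + 1) / 4 + ∑ k, m k, ?_⟩
    omega

lemma sum_vv : ∑ j, vv p j = tT p := rfl

lemma sum_vv_sq (hp : p % 4 = 3) :
    ∑ j, vv p j ^ 2 = (p : ℤ) * (((p - 1) / 2 : ℕ) : ℤ) - 2 * sS p ^ 2 := by
  have h1 : ∑ j, vv p j ^ 2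
      = ∑ a, ∑ b, cvec p a * cvec p b * ∑ k, Mp p k a * Mp p k b := by
    simp only [vv, sq, Finset.sum_mul_sum]
    rw [Finset.sum_comm]
    refine Finset.sum_congr rfl fun a _ => ?_
    rw [Finset.sum_comm]
    refine Finset.sum_congr rfl fun b _ => ?_
    rw [Finset.mul_sum]
    refine Finset.sum_congr rfl fun k _ => ?_
    ring
  rw [h1]
  simp only [MtM hp, mul_sub, Finset.sum_sub_distrib]
  have h2 : ∑ a, ∑ b, cvec p a * cvec p b * (if a = b then (p : ℤ) else 0)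
      = (p : ℤ) * (((p - 1) / 2 : ℕ) : ℤ) := by
    have : ∀ a ∈ (univ : Finset (Fin ((p - 1) / 2))),
        ∑ b, cvec p a * cvec p b * (if a = b then (p : ℤ) else 0) = (p : ℤ) := by
      intro a _
      simp only [mul_ite, mul_zero, Finset.sum_ite_eq, Finset.mem_univ, if_true]
      rw [cvec_sq, one_mul]
    rw [Finset.sum_congr rfl this]
    simp [mul_comm]
  have h3 : ∑ a, ∑ b, cvec p a * cvec p b * 2 = 2 * sS p ^ 2 := by
    rw [sS, sq, Finset.sum_mul_sum, Finset.mul_sum]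
    refine Finset.sum_congr rfl fun a _ => ?_
    rw [Finset.mul_sum]
    refine Finset.sum_congr rfl fun b _ => ?_
    ring
  rw [h2, h3]

lemma odd_sS (hp : p % 4 = 3) : ∃ m, sS p = 2 * m + 1 := by
  obtain ⟨N, -, hN⟩ := prod_pm (cvec p) cvec_sq
  refine ⟨((((p - 1) / 2 : ℕ) : ℤ) - 1) / 2 - N, ?_⟩
  rw [sS, hN]
  omega

/-- divisibility by 16 -/
lemma sixteen_dvd (hp : p % 4 = 3) :
    (16 : ℤ) ∣ sS p ^ 2 + (((p - 1) / 2 : ℕ) : ℤ) * tT p := by
  choose u hu using vv_mod (p := p) hp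
  obtain ⟨m, hm⟩ := odd_sS hp
  have hn : (p : ℤ) = 2 * (((p - 1) / 2 : ℕ) : ℤ) + 1 := by omega
  obtain ⟨r, hr⟩ : ∃ r : ℤ, (((p - 1) / 2 : ℕ) : ℤ) = 2 * r + 1 :=
    ⟨((((p - 1) / 2 : ℕ) : ℤ) - 1) / 2, by omega⟩
  set n : ℤ := (((p - 1) / 2 : ℕ) : ℤ) with hndef
  have h1 : tT p = -n + 4 * ∑ j, u j := by
    rw [← sum_vv, Finset.sum_congr rfl (fun j _ => hu j), Finset.sum_add_distrib, ← Finset.mul_sum]
    simp [hndef]
  have h2 : (p : ℤ) * n - 2 * sS p ^ 2 = n - 8 * ∑ j, u j + 16 * ∑ j, u j ^ 2 := by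
    rw [← sum_vv_sq hp, Finset.mul_sum, Finset.mul_sum]
    have : (n : ℤ) = ∑ _j : Fin ((p - 1) / 2), (1 : ℤ) := by simp [hndef]
    conv_rhs => rw [this]
    rw [← Finset.sum_sub_distrib, ← Finset.sum_add_distrib]
    refine Finset.sum_congr rfl fun j _ => ?_
    rw [hu j]; ring
  have h3 : ∃ w : ℤ, ∑ j, u j ^ 2 = ∑ j, u j + 2 * w := by
    have : ∀ j, ∃ w : ℤ, u j ^ 2 = u j + 2 * w := by
      intro j
      rcases Int.even_or_odd' (u j) with ⟨a, ha | ha⟩
      · exact ⟨2 * a ^ 2 - a, by rw [ha]; ring⟩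
      · exact ⟨2 * a ^ 2 + a, by rw [ha]; ring⟩
    choose w hw using this
    exact ⟨∑ j, w j, by rw [Finset.sum_congr rfl (fun j _ => hw j), Finset.sum_add_distrib,
      Finset.mul_sum]⟩
  obtain ⟨w, hw⟩ := h3
  rw [hw, hn] at h2
  -- `2 n² - 2 s² - 2 t - 2 n = 32 w`
  have h4 : n ^ 2 - sS p ^ 2 - tT p - n = 16 * w := by
    linarith
  have h5 : sS p ^ 2 + n * tT p = (n - 1) * (n ^ 2 - sS p ^ 2) - 16 * n * w := by
    linear_combination (-n) * h4
  rw [h5, hr, hm]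
  obtain ⟨a, ha⟩ : ∃ a : ℤ, r * (r + 1) = 2 * a := by
    rcases Int.even_or_odd' r with ⟨b, hb | hb⟩
    · exact ⟨b * (r + 1), by rw [hb]; ring⟩
    · exact ⟨r * (b + 1), by rw [hb]; ring⟩
  obtain ⟨b, hb⟩ : ∃ b : ℤ, m * (m + 1) = 2 * b := by
    rcases Int.even_or_odd' m with ⟨b, hb | hb⟩
    · exact ⟨b * (m + 1), by rw [hb]; ring⟩
    · exact ⟨m * (b + 1), by rw [hb]; ring⟩
  refine ⟨r * (a - b) - (2 * r + 1) * w, ?_⟩
  linear_combination (8 * r) * ha - (8 * r) * hb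

end Pool.Agent.Lib.MP_fe1d70_nt
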